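import Mathlib
import Pool.Agent.H26.SIF.Defs
import Pool.Agent.H26.SIF.Constr

/-! The unordered form of MP_008206_co: definitions, first facts, and the reduction of Q1. -/

namespace SIFU
open Finset

variable {P Q : Type} [Fintype P] [Fintype Q] [DecidableEq P] [DecidableEq Q]

/-- columns in which the row `r` has a one -/
def Nr (A : P → Q → Bool) (r : P) : Finset Q := univ.filter (fun c => A r c = true)

/-- rows in which the column `c` has a one -/
def Nc (A : P → Q → Bool) (c : Q) : Finset P := univ.filter (fun r => A r c = true)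

/-- `R × C` is a copy of the identity matrix (rows and columns in any order) -/
structure Cp (A : P → Q → Bool) (k : ℕ) (R : Finset P) (C : Finset Q) : Prop where
  cR : R.card = k
  cC : C.card = k
  row : ∀ r ∈ R, (C ∩ Nr A r).card = 1
  col : ∀ c ∈ C, (R ∩ Nc A c).card = 1

/-- every one lies in a copy -/
def U (A : P → Q → Bool) (k : ℕ) : Prop :=
  ∀ r c, A r c = true → ∃ R C, Cp A k R C ∧ r ∈ R ∧ c ∈ C

/-- number of ones -/
def E (A : P → Q → Bool) : Finset (P × Q) := univ.filter (fun p => A p.1 p.2 = true)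

/-- `r`, `r'` lie in a common copy -/
def Rel (A : P → Q → Bool) (k : ℕ) (r r' : P) : Prop :=
  ∃ R C, Cp A k R C ∧ r ∈ R ∧ r' ∈ R

omit [Fintype P] [DecidableEq P] [DecidableEq Q] in
theorem mem_Nr {A : P → Q → Bool} {r : P} {c : Q} : c ∈ Nr A r ↔ A r c = true := by
  simp [Nr]

omit [Fintype Q] [DecidableEq P] [DecidableEq Q] in
theorem mem_Nc {A : P → Q → Bool} {r : P} {c : Q} : r ∈ Nc A c ↔ A r c = true := by
  simp [Nc]

omit [Fintype P] [DecidableEq P] in
theorem Cp_inter [Fintype P] [DecidableEq P] {A : P → Q → Bool} {k : ℕ} {R : Finset P} {C : Finset Q} (h : Cp A k R C)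
    {r : P} {c : Q} (hr : r ∈ R) (hc : c ∈ C) (hA : A r c = true) : C ∩ Nr A r = {c} := by
  have h1 := h.row r hr
  rw [Finset.card_eq_one] at h1
  obtain ⟨c', hc'⟩ := h1
  have : c ∈ C ∩ Nr A r := by rw [mem_inter, mem_Nr]; exact ⟨hc, hA⟩
  rw [hc', mem_singleton] at this
  rw [hc', this]

/-- the copies of the transposed matrix -/
theorem Cp_swap {A : P → Q → Bool} {k : ℕ} {R : Finset P} {C : Finset Q} (h : Cp A k R C) :
    Cp (fun c r => A r c) k C R := ⟨h.cC, h.cR, h.col, h.row⟩

theorem U_swap {A : P → Q → Bool} {k : ℕ} (h : U A k) : U (fun c r => A r c) k := by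
  intro c r hA
  obtain ⟨R, C, hC, h1, h2⟩ := h r c hA
  exact ⟨C, R, Cp_swap hC, h2, h1⟩

/-- a set of columns meets a copy in at most as many elements as ... : the part outside `C` -/
theorem card_le_of_inter {C N : Finset Q} {k x a : ℕ} (hQ : Fintype.card Q = k + x)
    (hC : C.card = k) (h : (C ∩ N).card ≤ a) : N.card ≤ x + a := by
  have h1 : N ⊆ (C ∩ N) ∪ (univ \ C) := by
    intro c hc
    by_cases h : c ∈ C
    · exact mem_union_left _ (mem_inter.2 ⟨h, hc⟩)
    · exact mem_union_right _ (mem_sdiff.2 ⟨mem_univ _, h⟩)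
  have h2 := card_le_card h1
  have h3 := card_union_le (C ∩ N) (univ \ C)
  have h4 : (univ \ C).card = x := by
    rw [card_sdiff_of_subset (subset_univ _), hC, card_univ, hQ]; omega
  omega

/-- rows have at most `x + 1` ones -/
theorem deg_le {A : P → Q → Bool} {k x : ℕ} (hQ : Fintype.card Q = k + x) (hU : U A k) (r : P) :
    (Nr A r).card ≤ x + 1 := by
  rcases (Nr A r).eq_empty_or_nonempty with h | ⟨c, hc⟩
  · rw [h]; simp
  · obtain ⟨R, C, hC, h1, _⟩ := hU r c (mem_Nr.1 hc)
    exact card_le_of_inter hQ hC.cC (hC.row r h1).le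

/-- two rows in a common copy -/
theorem rel_le {A : P → Q → Bool} {k x : ℕ} (hQ : Fintype.card Q = k + x) {r r' : P}
    (h : Rel A k r r') : (Nr A r ∪ Nr A r').card ≤ x + 2 := by
  obtain ⟨R, C, hC, h1, h2⟩ := h
  apply card_le_of_inter hQ hC.cC
  rw [inter_union_distrib_left]
  have := card_union_le (C ∩ Nr A r) (C ∩ Nr A r')
  rw [hC.row r h1, hC.row r' h2] at this
  exact this

/-- the number of ones by rows -/
theorem card_E_rows (A : P → Q → Bool) : (E A).card = ∑ r, (Nr A r).card := by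
  unfold E Nr
  rw [card_filter, Fintype.sum_prod_type]
  apply Finset.sum_congr rfl
  intro r _
  rw [card_filter]

/-- the number of ones by columns -/
theorem card_E_cols (A : P → Q → Bool) : (E A).card = ∑ c, (Nc A c).card := by
  unfold E Nc
  rw [card_filter, Fintype.sum_prod_type_right]
  apply Finset.sum_congr rfl
  intro r _
  rw [card_filter]

/-- the unordered conjecture -/
def UConj : Prop := ∀ (n k : ℕ) (A : Fin n → Fin n → Bool), 2 ≤ k → k ≤ n → U A k →
  (E A).card ≤ (n - k + 1) ^ 2 + (n - 1)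

/-- ordered copies are copies -/
theorem U_of_strong {n k : ℕ} {A : Fin n → Fin n → Bool}
    (hA : SIF.StronglyForcing (SIF.idMat k) A) : U A k := by
  intro i j hij
  obtain ⟨r, c, hr, hc, ⟨s, hs⟩, ⟨s', hs'⟩, hQ⟩ := hA i j hij
  refine ⟨univ.image r, univ.image c, ⟨?_, ?_, ?_, ?_⟩, ?_, ?_⟩
  · rw [card_image_of_injective _ hr.injective]; simp
  · rw [card_image_of_injective _ hc.injective]; simp
  · intro a ha
    obtain ⟨t, _, rfl⟩ := mem_image.1 ha
    rw [card_eq_one]
    refine ⟨c t, ?_⟩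
    ext d
    rw [mem_inter, mem_image, mem_Nr, mem_singleton]
    constructor
    · rintro ⟨⟨t', _, rfl⟩, h⟩
      rw [hQ] at h
      have : t = t' := by simpa [SIF.idMat] using h
      rw [this]
    · rintro rfl
      exact ⟨⟨t, mem_univ _, rfl⟩, by rw [hQ]; simp [SIF.idMat]⟩
  · intro a ha
    obtain ⟨t, _, rfl⟩ := mem_image.1 ha
    rw [card_eq_one]
    refine ⟨r t, ?_⟩
    ext d
    rw [mem_inter, mem_image, mem_Nc, mem_singleton]
    constructor
    · rintro ⟨⟨t', _, rfl⟩, h⟩
      rw [hQ] at h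
      have : t' = t := by simpa [SIF.idMat] using h
      rw [this]
    · rintro rfl
      exact ⟨⟨t, mem_univ _, rfl⟩, by rw [hQ]; simp [SIF.idMat]⟩
  · rw [← hs]; exact mem_image_of_mem _ (mem_univ _)
  · rw [← hs']; exact mem_image_of_mem _ (mem_univ _)

/-- the unordered conjecture implies the conjectured formula -/
theorem full_of_UConj (hT : UConj) (n k : ℕ) (hk : 2 ≤ k) (hkn : k ≤ n) :
    (SIF.maxOnes n (SIF.idMat k) : ℤ) = (n : ℤ) ^ 2 - (2 * k - 3) * n + k ^ 2 - 2 * k := by
  obtain ⟨⟨A, hA, hAm⟩, hmax⟩ := SIF.maxOnes_spec (n := n) (SIF.idMat k)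
  apply le_antisymm
  · have h1 := hT n k A hk hkn (U_of_strong hA)
    have h0 : (E A).card = SIF.ones A := rfl
    rw [h0, hAm] at h1
    have h2 : (SIF.maxOnes n (SIF.idMat k) : ℤ) ≤ (((n - k + 1) ^ 2 + (n - 1) : ℕ) : ℤ) := by
      exact_mod_cast h1
    refine h2.trans (le_of_eq ?_)
    have h3 : 1 ≤ n := by omega
    push_cast [Nat.cast_sub hkn, Nat.cast_sub h3]
    ring
  · have h1 := hmax _ (SIF.Sm_strong hk hkn)
    have h2 : ((SIF.ones (SIF.Sm n k) : ℕ) : ℤ) ≤ (SIF.maxOnes n (SIF.idMat k) : ℤ) := by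
      exact_mod_cast h1
    rw [SIF.Sm_ones hk hkn] at h2
    exact h2

end SIFU
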