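import Mathlib
import Pool.Agent.H26.SIF.Defs
import Pool.Agent.H26.SIF.Alg

/-! The algebraic bound with one fixed matching: `ones A + p q ≤ k + (n-k+p)(n-k+q)` as soon as
`min k (2 (n-k)) ≤ p q`. -/

namespace SIF
open Finset

/-- points in general position for all sizes at once -/
theorem exists_points_all (n p q : ℕ) :
    ∃ a b : Fin n → ℚ, Function.Injective a ∧ Function.Injective b ∧
      ∀ (m : ℕ) (h : m ≤ p * q) (r c : Fin m → Fin n), Function.Injective r →
        Function.Injective c →
        (Matrix.of fun s u : Fin m => a (r s) ^ ((ex h u).1 : ℕ) * b (c s) ^ ((ex h u).2 : ℕ)).det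
          ≠ 0 := by
  classical
  let P1 : MvPolynomial (Fin n ⊕ Fin n) ℚ :=
    ∏ m : Fin (p * q + 1),
    ∏ rc ∈ (Finset.univ : Finset ((Fin m → Fin n) × (Fin m → Fin n))).filter
      (fun rc => Function.Injective rc.1 ∧ Function.Injective rc.2),
        (gm (Nat.le_of_lt_succ m.2) rc.1 rc.2).det
  let P2 : MvPolynomial (Fin n ⊕ Fin n) ℚ :=
    ∏ ij ∈ (Finset.univ : Finset ((Fin n ⊕ Fin n) × (Fin n ⊕ Fin n))).filter
      (fun ij => ij.1 ≠ ij.2), (MvPolynomial.X ij.1 - MvPolynomial.X ij.2)
  have hP1 : P1 ≠ 0 := by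
    rw [Finset.prod_ne_zero_iff]
    intro m _
    rw [Finset.prod_ne_zero_iff]
    intro rc hrc
    rw [Finset.mem_filter] at hrc
    exact det_ne _ hrc.2.1 hrc.2.2
  have hP2 : P2 ≠ 0 := by
    rw [Finset.prod_ne_zero_iff]
    intro ij hij
    rw [Finset.mem_filter] at hij
    rw [sub_ne_zero]
    intro hX
    exact hij.2 (MvPolynomial.X_injective hX)
  have hP : P1 * P2 ≠ 0 := mul_ne_zero hP1 hP2
  obtain ⟨x, hx⟩ : ∃ x : Fin n ⊕ Fin n → ℚ, MvPolynomial.eval x (P1 * P2) ≠ 0 := by
    by_contra hcon
    push Not at hcon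
    exact hP (MvPolynomial.funext (fun x => by rw [hcon x, map_zero]))
  rw [map_mul] at hx
  have hx1 := left_ne_zero_of_mul hx
  have hx2 := right_ne_zero_of_mul hx
  rw [map_prod, Finset.prod_ne_zero_iff] at hx1 hx2
  refine ⟨fun i => x (Sum.inl i), fun j => x (Sum.inr j), ?_, ?_, ?_⟩
  · intro i i' hii
    by_contra hne
    have := hx2 (Sum.inl i, Sum.inl i') (by simp [hne])
    apply this
    simp only at hii
    simp [hii]
  · intro i i' hii
    by_contra hne
    have := hx2 (Sum.inr i, Sum.inr i') (by simp [hne])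
    apply this
    simp only at hii
    simp [hii]
  · intro m h r c hr hc
    have h0 := hx1 ⟨m, Nat.lt_succ_of_le h⟩ (Finset.mem_univ _)
    rw [map_prod, Finset.prod_ne_zero_iff] at h0
    have := h0 (r, c) (by simp [hr, hc])
    rw [RingHom.map_det] at this
    convert this using 2
    ext s u
    simp [gm]

/-- value at `(x, y)` of the polynomial with coefficients `g` -/
def pv {P Q : ℕ} (g : Fin P × Fin Q → ℚ) (x y : ℚ) : ℚ :=
  ∑ m, g m * (x ^ (m.1 : ℕ) * y ^ (m.2 : ℕ))

open Polynomial in
/-- multiplication by `P(x) Q(y)` -/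
noncomputable def mulT (d p q : ℕ) (P Q : ℚ[X]) :
    (Fin p × Fin q → ℚ) →ₗ[ℚ] (Fin (d + p) × Fin (d + q) → ℚ) where
  toFun g uw := ∑ m, g m * ((P * X ^ (m.1 : ℕ)).coeff uw.1 * (Q * X ^ (m.2 : ℕ)).coeff uw.2)
  map_add' g g' := by
    ext uw
    simp only [Pi.add_apply, add_mul, Finset.sum_add_distrib]
  map_smul' t g := by
    ext uw
    simp only [Pi.smul_apply, smul_eq_mul, RingHom.id_apply, Finset.mul_sum, mul_assoc]

open Polynomial in
theorem pv_mulT {d p q : ℕ} {P Q : ℚ[X]} (hP : P.natDegree ≤ d) (hQ : Q.natDegree ≤ d)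
    (g : Fin p × Fin q → ℚ) (x y : ℚ) :
    pv (mulT d p q P Q g) x y = P.eval x * Q.eval y * pv g x y := by
  have hPm : ∀ m : Fin p, (P * X ^ (m : ℕ)).natDegree < d + p := by
    intro m
    have h1 := Polynomial.natDegree_mul_le (p := P) (q := X ^ (m : ℕ))
    rw [Polynomial.natDegree_X_pow] at h1
    have h2 := m.2
    omega
  have hQm : ∀ m : Fin q, (Q * X ^ (m : ℕ)).natDegree < d + q := by
    intro m
    have h1 := Polynomial.natDegree_mul_le (p := Q) (q := X ^ (m : ℕ))
    rw [Polynomial.natDegree_X_pow] at h1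
    have h2 := m.2
    omega
  unfold pv
  change ∑ uw : Fin (d + p) × Fin (d + q), (∑ m, g m *
    ((P * X ^ (m.1 : ℕ)).coeff uw.1 * (Q * X ^ (m.2 : ℕ)).coeff uw.2)) *
      (x ^ (uw.1 : ℕ) * y ^ (uw.2 : ℕ)) = _
  simp only [Finset.sum_mul]
  rw [Finset.sum_comm, Finset.mul_sum]
  apply Finset.sum_congr rfl
  intro m _
  have h1 := eval_coeffs _ (hPm m.1) x
  have h2 := eval_coeffs _ (hQm m.2) y
  rw [Polynomial.eval_mul, Polynomial.eval_pow, Polynomial.eval_X] at h1 h2
  have h3 : ∑ uw : Fin (d + p) × Fin (d + q), g m *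
      ((P * X ^ (m.1 : ℕ)).coeff uw.1 * (Q * X ^ (m.2 : ℕ)).coeff uw.2) *
      (x ^ (uw.1 : ℕ) * y ^ (uw.2 : ℕ)) =
      g m * ((∑ u : Fin (d + p), (P * X ^ (m.1 : ℕ)).coeff u * x ^ (u : ℕ)) *
        (∑ w : Fin (d + q), (Q * X ^ (m.2 : ℕ)).coeff w * y ^ (w : ℕ))) := by
    rw [Fintype.sum_prod_type, Finset.sum_mul_sum, Finset.mul_sum]
    apply Finset.sum_congr rfl
    intro u _
    rw [Finset.mul_sum]
    apply Finset.sum_congr rfl
    intro w _
    ring
  rw [h3, h1, h2]
  ring

open Polynomial in
/-- the top square block of the multiplication by a monic polynomial is unitriangular -/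
theorem tri_unit {d p : ℕ} {P : ℚ[X]} (hP : P.Monic) (hd : P.natDegree = d) :
    IsUnit (Matrix.of fun u' u : Fin p => (P * X ^ (u : ℕ)).coeff (d + u')).det := by
  have hcoef : ∀ u' u : Fin p, u ≤ u' →
      (P * X ^ (u : ℕ)).coeff (d + u') = P.coeff (d + u' - u) := by
    intro u' u huu
    rw [Polynomial.coeff_mul_X_pow', if_pos (by have : (u : ℕ) ≤ u' := huu; omega)]
  rw [Matrix.det_of_isUpperTriangular]
  · have : ∀ i : Fin p, (Matrix.of fun u' u : Fin p => (P * X ^ (u : ℕ)).coeff (d + u')) i i
        = 1 := by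
      intro i
      rw [Matrix.of_apply, hcoef i i le_rfl, Nat.add_sub_cancel, ← hd]
      exact hP
    rw [Finset.prod_congr rfl (fun i _ => this i), Finset.prod_const_one]
    exact isUnit_one
  · intro i j hij
    have hij' : (j : ℕ) < i := hij
    rw [Matrix.of_apply, hcoef i j hij'.le]
    apply Polynomial.coeff_eq_zero_of_natDegree_lt
    rw [hd]
    omega

open Polynomial in
theorem mulT_inj {d p q : ℕ} {P Q : ℚ[X]} (hP : P.Monic) (hPd : P.natDegree = d)
    (hQ : Q.Monic) (hQd : Q.natDegree = d) : Function.Injective (mulT d p q P Q) := by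
  rw [injective_iff_map_eq_zero]
  intro g hg
  let S : Matrix (Fin p) (Fin p) ℚ := Matrix.of fun u' u : Fin p =>
    (P * X ^ (u : ℕ)).coeff (d + u')
  let T : Matrix (Fin q) (Fin q) ℚ := Matrix.of fun u' u : Fin q =>
    (Q * X ^ (u : ℕ)).coeff (d + u')
  let G : Matrix (Fin p) (Fin q) ℚ := Matrix.of fun u w => g (u, w)
  have hS : IsUnit S.det := tri_unit hP hPd
  have hT : IsUnit T.det := tri_unit hQ hQd
  have hTt : IsUnit (T.transpose).det := by rw [Matrix.det_transpose]; exact hT
  have h0 : S * G * T.transpose = 0 := by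
    ext u' w'
    have h1 := congrFun hg (⟨d + u', by omega⟩, ⟨d + w', by omega⟩)
    rw [Matrix.zero_apply, Matrix.mul_apply]
    change ∑ m : Fin p × Fin q, g m * ((P * X ^ (m.1 : ℕ)).coeff (d + u') *
      (Q * X ^ (m.2 : ℕ)).coeff (d + w')) = 0 at h1
    rw [Fintype.sum_prod_type, Finset.sum_comm] at h1
    rw [← h1]
    apply Finset.sum_congr rfl
    intro w _
    rw [Matrix.mul_apply, Finset.sum_mul]
    apply Finset.sum_congr rfl
    intro u _
    simp only [S, T, G, Matrix.of_apply, Matrix.transpose_apply]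
    ring
  have h2 : S * G = 0 := by
    have := congrArg (fun M => M * (T.transpose)⁻¹) h0
    simp only [Matrix.zero_mul] at this
    rwa [Matrix.mul_nonsing_inv_cancel_right _ _ hTt] at this
  have h3 : G = 0 := by
    have := congrArg (fun M => S⁻¹ * M) h2
    simp only [Matrix.mul_zero] at this
    rwa [Matrix.nonsing_inv_mul_cancel_left _ _ hS] at this
  ext ⟨u, w⟩
  exact congrFun (congrFun h3 u) w

open Polynomial in
/-- the monic polynomial vanishing on `a '' S` -/
noncomputable def van {n : ℕ} (a : Fin n → ℚ) (S : Finset (Fin n)) : ℚ[X] :=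
  ∏ i ∈ S, (X - C (a i))

theorem van_monic {n : ℕ} (a : Fin n → ℚ) (S : Finset (Fin n)) : (van a S).Monic :=
  Polynomial.monic_prod_X_sub_C _ _

theorem van_natDegree {n : ℕ} (a : Fin n → ℚ) (S : Finset (Fin n)) :
    (van a S).natDegree = S.card :=
  Polynomial.natDegree_finsetProd_X_sub_C_eq_card _ _

theorem van_eval {n : ℕ} (a : Fin n → ℚ) (S : Finset (Fin n)) {i : Fin n} (hi : i ∈ S) :
    (van a S).eval (a i) = 0 := by
  unfold van
  rw [Polynomial.eval_prod]
  apply Finset.prod_eq_zero hi
  simp

theorem van_eval_ne {n : ℕ} {a : Fin n → ℚ} (ha : Function.Injective a) (S : Finset (Fin n))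
    {i : Fin n} (hi : i ∉ S) : (van a S).eval (a i) ≠ 0 := by
  unfold van
  rw [Polynomial.eval_prod, Finset.prod_ne_zero_iff]
  intro j hj
  simp only [Polynomial.eval_sub, Polynomial.eval_X, Polynomial.eval_C]
  rw [sub_ne_zero]
  intro hij
  rw [ha hij] at hi
  exact hi hj

/-- an entry of the rows and columns of a copy of `I_k` lies on its diagonal -/
theorem on_diag {n k : ℕ} {A : Fin n → Fin n → Bool} {r c : Fin k → Fin n}
    (hQ : ∀ a b, A (r a) (c b) = idMat k a b) {i j : Fin n} (hA : A i j = true)
    (hi : i ∈ univ.image r) (hj : j ∈ univ.image c) : ∃ s, r s = i ∧ c s = j := by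
  obtain ⟨s, _, rfl⟩ := Finset.mem_image.1 hi
  obtain ⟨s', _, rfl⟩ := Finset.mem_image.1 hj
  have := hQ s s'
  rw [hA] at this
  have hss : s = s' := by simpa [idMat] using this.symm
  subst hss
  exact ⟨s, rfl, rfl⟩

/-- a second copy of `I_k` has at most `2 (n-k)` diagonal entries off a first one -/
theorem card_off {n k : ℕ} {A : Fin n → Fin n → Bool} {r c r1 c1 : Fin k → Fin n}
    (hr : Function.Injective r) (hc : Function.Injective c)
    (hr1 : Function.Injective r1) (hc1 : Function.Injective c1)
    (hQ : ∀ a b, A (r a) (c b) = idMat k a b) (hQ1 : ∀ a b, A (r1 a) (c1 b) = idMat k a b) :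
    ((univ : Finset (Fin k)).filter (fun s => ¬ ∃ s1, r1 s1 = r s ∧ c1 s1 = c s)).card
      ≤ min k (2 * (n - k)) := by
  classical
  apply le_min
  · exact (Finset.card_le_univ _).trans (by simp)
  · have hsub : ((univ : Finset (Fin k)).filter (fun s => ¬ ∃ s1, r1 s1 = r s ∧ c1 s1 = c s)) ⊆
        (univ.filter (fun s => r s ∉ univ.image r1)) ∪
        (univ.filter (fun s => c s ∉ univ.image c1)) := by
      intro s hs
      rw [Finset.mem_filter] at hs
      by_contra hcon
      rw [Finset.mem_union, not_or, Finset.mem_filter, Finset.mem_filter] at hcon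
      have h1 : r s ∈ univ.image r1 := by
        by_contra h; exact hcon.1 ⟨Finset.mem_univ _, h⟩
      have h2 : c s ∈ univ.image c1 := by
        by_contra h; exact hcon.2 ⟨Finset.mem_univ _, h⟩
      have hAs : A (r s) (c s) = true := by rw [hQ]; simp [idMat]
      exact hs.2 (on_diag hQ1 hAs h1 h2)
    have hrow : (univ.filter (fun s => r s ∉ univ.image r1)).card ≤ n - k := by
      have : (univ.filter (fun s => r s ∉ univ.image r1)).card =
          ((univ.filter (fun s => r s ∉ univ.image r1)).image r).card :=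
        (Finset.card_image_of_injective _ hr).symm
      rw [this]
      refine (Finset.card_le_card (t := (univ.image r1)ᶜ) ?_).trans ?_
      · intro i hi
        obtain ⟨s, hs, rfl⟩ := Finset.mem_image.1 hi
        rw [Finset.mem_filter] at hs
        exact Finset.mem_compl.2 hs.2
      · rw [Finset.card_compl, Finset.card_image_of_injective _ hr1]; simp
    have hcol : (univ.filter (fun s => c s ∉ univ.image c1)).card ≤ n - k := by
      have : (univ.filter (fun s => c s ∉ univ.image c1)).card =
          ((univ.filter (fun s => c s ∉ univ.image c1)).image c).card :=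
        (Finset.card_image_of_injective _ hc).symm
      rw [this]
      refine (Finset.card_le_card (t := (univ.image c1)ᶜ) ?_).trans ?_
      · intro i hi
        obtain ⟨s, hs, rfl⟩ := Finset.mem_image.1 hi
        rw [Finset.mem_filter] at hs
        exact Finset.mem_compl.2 hs.2
      · rw [Finset.card_compl, Finset.card_image_of_injective _ hc1]; simp
    refine (Finset.card_le_card hsub).trans ((Finset.card_union_le _ _).trans ?_)
    omega

/-- evaluation on a finite set of positions -/
noncomputable def evE {n P Q : ℕ} (a b : Fin n → ℚ) (E : Finset (Fin n × Fin n)) :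
    (Fin P × Fin Q → ℚ) →ₗ[ℚ] (E → ℚ) where
  toFun g e := pv g (a e.1.1) (b e.1.2)
  map_add' g g' := by
    ext e
    simp only [pv, Pi.add_apply, add_mul, Finset.sum_add_distrib]
  map_smul' t g := by
    ext e
    simp only [pv, Pi.smul_apply, smul_eq_mul, RingHom.id_apply, Finset.mul_sum, mul_assoc]

theorem evE_apply {n P Q : ℕ} (a b : Fin n → ℚ) (E : Finset (Fin n × Fin n))
    (g : Fin P × Fin Q → ℚ) (e : E) : evE a b E g e = pv g (a e.1.1) (b e.1.2) := rfl

/-- the algebraic bound with one fixed matching -/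
theorem asym_bound {n k p q : ℕ} (h : min k (2 * (n - k)) ≤ p * q)
    {A : Fin n → Fin n → Bool} (hA : StronglyForcing (idMat k) A) :
    ones A + p * q ≤ k + (n - k + p) * (n - k + q) := by
  classical
  by_cases hE0 : ∃ i j, A i j = true
  swap
  · have h0 : ones A = 0 := by
      unfold ones
      rw [Finset.card_eq_zero, Finset.filter_eq_empty_iff]
      intro e _ he
      exact hE0 ⟨e.1, e.2, he⟩
    rw [h0, zero_add]
    exact (Nat.mul_le_mul (Nat.le_add_left p _) (Nat.le_add_left q _)).trans
      (Nat.le_add_left _ _)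
  obtain ⟨i1, j1, hA1⟩ := hE0
  obtain ⟨r1, c1, hr1, hc1, _, _, hQ1⟩ := hA i1 j1 hA1
  obtain ⟨a, b, ha, hb, hdet⟩ := exists_points_all n p q
  let M1 : Finset (Fin n × Fin n) := univ.image (fun s => (r1 s, c1 s))
  let E : Finset (Fin n × Fin n) := univ.filter (fun e : Fin n × Fin n => A e.1 e.2 = true)
  let E' : Finset (Fin n × Fin n) := E \ M1
  have hM1 : M1.card = k := by
    simp only [M1]
    rw [Finset.card_image_of_injective _ (fun s s' hs => hr1.injective (congrArg Prod.fst hs))]
    simp
  have hM1E : M1 ⊆ E := by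
    intro e he
    obtain ⟨s, _, rfl⟩ := Finset.mem_image.1 he
    simp only [E, Finset.mem_filter, Finset.mem_univ, true_and]
    rw [hQ1]; simp [idMat]
  have hE' : E'.card + k = ones A := by
    have := Finset.card_sdiff_add_card_eq_card hM1E
    rw [hM1] at this
    exact this
  have hcr : ∀ {r : Fin k → Fin n}, Function.Injective r →
      ((univ.image r)ᶜ : Finset (Fin n)).card = n - k := by
    intro r hr
    rw [Finset.card_compl, Finset.card_image_of_injective _ hr]; simp
  let Φ : (Fin (n - k + p) × Fin (n - k + q) → ℚ) →ₗ[ℚ] (E' → ℚ) := evE a b E'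
  have hsurj : Function.Surjective Φ := by
    have hsingle : ∀ e : E', ∃ c, ∃ t : ℚ, t ≠ 0 ∧ Φ c = Pi.single e t := by
      rintro ⟨⟨i0, j0⟩, he⟩
      have hA0 : A i0 j0 = true := by
        have := (Finset.mem_sdiff.1 he).1
        simpa [E] using this
      have hnot : (i0, j0) ∉ M1 := (Finset.mem_sdiff.1 he).2
      obtain ⟨r, c, hr, hc, ⟨s0, hs0⟩, ⟨s1, hs1⟩, hQ⟩ := hA i0 j0 hA0
      have hs : s0 = s1 := by
        have := hQ s0 s1
        rw [hs0, hs1, hA0] at this
        simpa [idMat] using this.symm
      subst hs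
      let T : Finset (Fin k) :=
        (univ : Finset (Fin k)).filter (fun s => ¬ ∃ s1, r1 s1 = r s ∧ c1 s1 = c s)
      have hTc : T.card ≤ p * q :=
        (card_off hr.injective hc.injective hr1.injective hc1.injective hQ hQ1).trans h
      have hs0T : s0 ∈ T := by
        simp only [T, Finset.mem_filter, Finset.mem_univ, true_and]
        rintro ⟨s1, h1, h2⟩
        apply hnot
        exact Finset.mem_image.2 ⟨s1, Finset.mem_univ _, by rw [h1, h2, hs0, hs1]⟩
      let τ : Fin T.card ↪o Fin k := T.orderEmbOfFin rfl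
      obtain ⟨u0, hu0⟩ : ∃ u0, τ u0 = s0 := by
        have : s0 ∈ Set.range τ := by
          rw [Finset.range_orderEmbOfFin]; exact hs0T
        exact this
      let M : Matrix (Fin T.card) (Fin T.card) ℚ :=
        Matrix.of fun s m : Fin T.card => a (r (τ s)) ^ ((ex hTc m).1 : ℕ) *
          b (c (τ s)) ^ ((ex hTc m).2 : ℕ)
      have hM : IsUnit M.det := (hdet T.card hTc (fun s => r (τ s)) (fun s => c (τ s))
        (hr.injective.comp τ.injective) (hc.injective.comp τ.injective)).isUnit
      let g : Fin T.card → ℚ := fun m => M⁻¹ m u0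
      have hg : ∀ s, ∑ m, M s m * g m = if s = u0 then 1 else 0 := by
        intro s
        have := congrFun (congrFun (Matrix.mul_nonsing_inv M hM) s) u0
        rw [Matrix.mul_apply, Matrix.one_apply] at this
        exact this
      let G : Fin p × Fin q → ℚ := fun m => ∑ u, if ex hTc u = m then g u else 0
      have hG : ∀ x y : ℚ, pv G x y =
          ∑ u, (x ^ ((ex hTc u).1 : ℕ) * y ^ ((ex hTc u).2 : ℕ)) * g u := by
        intro x y
        unfold pv
        simp only [G, Finset.sum_mul]
        rw [Finset.sum_comm]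
        apply Finset.sum_congr rfl
        intro u _
        simp only [ite_mul, zero_mul]
        rw [Finset.sum_ite_eq, if_pos (Finset.mem_univ _), mul_comm]
      have hval : ∀ s, pv G (a (r (τ s))) (b (c (τ s))) = if s = u0 then 1 else 0 := by
        intro s
        rw [hG, ← hg s]
        rfl
      refine ⟨mulT (n - k) p q (van a (univ.image r)ᶜ) (van b (univ.image c)ᶜ) G,
        (van a (univ.image r)ᶜ).eval (a i0) * (van b (univ.image c)ᶜ).eval (b j0), ?_, ?_⟩
      · apply mul_ne_zero
        · apply van_eval_ne ha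
          rw [Finset.mem_compl, not_not]
          exact Finset.mem_image.2 ⟨s0, Finset.mem_univ _, hs0⟩
        · apply van_eval_ne hb
          rw [Finset.mem_compl, not_not]
          exact Finset.mem_image.2 ⟨s0, Finset.mem_univ _, hs1⟩
      · ext e
        change evE a b E' _ e = _
        rw [evE_apply, pv_mulT (by rw [van_natDegree, hcr hr.injective])
          (by rw [van_natDegree, hcr hc.injective])]
        by_cases heq : e = ⟨(i0, j0), he⟩
        · rw [heq, Pi.single_eq_same]
          have := hval u0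
          rw [hu0, hs0, hs1, if_pos rfl] at this
          simp only
          rw [this, mul_one]
        · rw [Pi.single_eq_of_ne heq]
          obtain ⟨⟨i, j⟩, hij⟩ := e
          have hAij : A i j = true := by
            have := (Finset.mem_sdiff.1 hij).1
            simpa [E] using this
          have hijM : (i, j) ∉ M1 := (Finset.mem_sdiff.1 hij).2
          by_cases hi : i ∈ univ.image r
          · by_cases hj : j ∈ univ.image c
            · obtain ⟨s, hs, hs'⟩ := on_diag hQ hAij hi hj
              have hsT : s ∈ T := by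
                simp only [T, Finset.mem_filter, Finset.mem_univ, true_and]
                rintro ⟨s1, h1, h2⟩
                apply hijM
                exact Finset.mem_image.2 ⟨s1, Finset.mem_univ _, by rw [h1, h2, hs, hs']⟩
              obtain ⟨u, hu⟩ : ∃ u, τ u = s := by
                have : s ∈ Set.range τ := by
                  rw [Finset.range_orderEmbOfFin]; exact hsT
                exact this
              have hne : u ≠ u0 := by
                rintro rfl
                apply heq
                apply Subtype.ext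
                simp only
                rw [← hs, ← hs', ← hs0, ← hs1, ← hu0, ← hu]
              have := hval u
              rw [hu, hs, hs', if_neg hne] at this
              simp only
              rw [this, mul_zero]
            · simp only
              rw [van_eval b _ (Finset.mem_compl.2 hj)]; ring
          · simp only
            rw [van_eval a _ (Finset.mem_compl.2 hi)]; ring
    rw [← LinearMap.range_eq_top, eq_top_iff, ← (Pi.basisFun ℚ E').span_eq, Submodule.span_le]
    rintro _ ⟨e, rfl⟩
    obtain ⟨c, t, ht, hct⟩ := hsingle e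
    refine ⟨t⁻¹ • c, ?_⟩
    rw [map_smul, hct, Pi.basisFun_apply]
    ext e'
    rw [Pi.smul_apply, smul_eq_mul]
    by_cases hee : e' = e
    · rw [hee, Pi.single_eq_same, Pi.single_eq_same, inv_mul_cancel₀ ht]
    · rw [Pi.single_eq_of_ne hee, Pi.single_eq_of_ne hee, mul_zero]
  let Ψ := mulT (n - k) p q (van a (univ.image r1)ᶜ) (van b (univ.image c1)ᶜ)
  have hΨ : Function.Injective Ψ :=
    mulT_inj (van_monic _ _) (by rw [van_natDegree, hcr hr1.injective])
      (van_monic _ _) (by rw [van_natDegree, hcr hc1.injective])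
  have hker : LinearMap.range Ψ ≤ LinearMap.ker Φ := by
    rintro _ ⟨g, rfl⟩
    rw [LinearMap.mem_ker]
    ext e
    change evE a b E' (mulT (n - k) p q (van a (univ.image r1)ᶜ) (van b (univ.image c1)ᶜ) g) e = _
    rw [evE_apply, pv_mulT (by rw [van_natDegree, hcr hr1.injective])
          (by rw [van_natDegree, hcr hc1.injective]), Pi.zero_apply]
    obtain ⟨⟨i, j⟩, hij⟩ := e
    have hAij : A i j = true := by
      have := (Finset.mem_sdiff.1 hij).1
      simpa [E] using this
    have hijM : (i, j) ∉ M1 := (Finset.mem_sdiff.1 hij).2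
    simp only
    by_cases hi : i ∈ univ.image r1
    · by_cases hj : j ∈ univ.image c1
      · exfalso
        obtain ⟨s, hs, hs'⟩ := on_diag hQ1 hAij hi hj
        apply hijM
        exact Finset.mem_image.2 ⟨s, Finset.mem_univ _, by rw [hs, hs']⟩
      · rw [van_eval b _ (Finset.mem_compl.2 hj)]; ring
    · rw [van_eval a _ (Finset.mem_compl.2 hi)]; ring
  have h1 := LinearMap.finrank_range_add_finrank_ker Φ
  have h2 := Submodule.finrank_mono hker
  rw [LinearMap.finrank_range_of_inj hΨ] at h2
  rw [LinearMap.range_eq_top.2 hsurj, finrank_top] at h1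
  rw [Module.finrank_fintype_fun_eq_card, Fintype.card_prod, Fintype.card_fin,
    Fintype.card_fin] at h2
  rw [Module.finrank_fintype_fun_eq_card, Module.finrank_fintype_fun_eq_card, Fintype.card_coe,
    Fintype.card_prod, Fintype.card_fin, Fintype.card_fin] at h1
  omega

end SIF
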