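import Mathlib
import Pool.Agent.H26.SIF.Defs
import Pool.Agent.H26.SIF.Constr

/-! The lemma T2b (rectangular form) and the reduction of Q1 of MP_008206_co to it. -/

namespace SIFT
open Finset

/-- `f, g` describe a chain of size `a` in `E` which ends at `(r, c)`: an identity submatrix with
lower right corner `(r, c)` -/
structure Ch (E : Finset (ℕ × ℕ)) (a r c : ℕ) (f g : ℕ → ℕ) : Prop where
  pos : 0 < a
  fmono : ∀ i j, i < j → j < a → f i < f j
  gmono : ∀ i j, i < j → j < a → g i < g j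
  mem : ∀ i < a, (f i, g i) ∈ E
  off : ∀ i j, i < a → j < a → i ≠ j → (f i, g j) ∉ E
  fl : f (a - 1) = r
  gl : g (a - 1) = c

/-- the hypotheses of T2b for `E ⊆ [0, m) × [0, n)` and `x, y` -/
structure Hyp (E : Finset (ℕ × ℕ)) (m n x y : ℕ) : Prop where
  sub : ∀ r c, (r, c) ∈ E → r < m ∧ c < n
  row : ∀ r c, (r, c) ∈ E → (∀ c', c < c' → (r, c') ∉ E) →
    ∃ a f g, Ch E a r c f g ∧ c + 1 ≤ a + x
  col : ∀ r c, (r, c) ∈ E → (∀ r', r < r' → (r', c) ∉ E) →
    ∃ a f g, Ch E a r c f g ∧ r + 1 ≤ a + y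

/-- the lemma T2b -/
def T2b : Prop := ∀ (E : Finset (ℕ × ℕ)) (n x : ℕ), 1 ≤ n → Hyp E n n x x →
  E.card ≤ (x + 1) ^ 2 + (n - 1)

/-- the rectangular form -/
def T2bRect : Prop := ∀ (E : Finset (ℕ × ℕ)) (m n x y k : ℕ), 2 ≤ k → k ≤ m - y → k ≤ n - x →
  (k = m - y ∨ k = n - x) → Hyp E m n x y → E.card + 1 ≤ (x + 1) * (y + 1) + k + min x y

/-- the positions of the ones of a matrix -/
def EA {n : ℕ} (A : Fin n → Fin n → Bool) : Finset (ℕ × ℕ) :=
  (univ.filter (fun p : Fin n × Fin n => A p.1 p.2 = true)).image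
    (fun p => ((p.1 : ℕ), (p.2 : ℕ)))

theorem EA_card {n : ℕ} (A : Fin n → Fin n → Bool) : (EA A).card = SIF.ones A := by
  unfold EA SIF.ones
  rw [Finset.card_image_of_injective]
  rintro ⟨a, b⟩ ⟨c, d⟩ h
  simp only [Prod.mk.injEq, Fin.val_inj] at h
  rw [h.1, h.2]

theorem mem_EA {n : ℕ} (A : Fin n → Fin n → Bool) {r c : ℕ} :
    (r, c) ∈ EA A ↔ ∃ i j : Fin n, A i j = true ∧ (i : ℕ) = r ∧ (j : ℕ) = c := by
  unfold EA
  rw [Finset.mem_image]
  constructor
  · rintro ⟨⟨i, j⟩, h, he⟩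
    rw [Finset.mem_filter] at h
    rw [Prod.mk.injEq] at he
    exact ⟨i, j, h.2, he.1, he.2⟩
  · rintro ⟨i, j, h, rfl, rfl⟩
    exact ⟨(i, j), by simp [h], rfl⟩

theorem mem_EA' {n : ℕ} (A : Fin n → Fin n → Bool) (i j : Fin n) :
    ((i : ℕ), (j : ℕ)) ∈ EA A ↔ A i j = true := by
  rw [mem_EA]
  constructor
  · rintro ⟨i', j', h, h1, h2⟩
    rw [Fin.val_inj] at h1 h2
    rw [← h1, ← h2]; exact h
  · intro h; exact ⟨i, j, h, rfl, rfl⟩

theorem mono_bound {n k : ℕ} {c : Fin k → Fin n} (hc : StrictMono c) (s : Fin k) :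
    (c s : ℕ) + (k - s) ≤ n := by
  have key : ∀ d : ℕ, ∀ h : (s : ℕ) + d < k, (c s : ℕ) + d ≤ c ⟨(s : ℕ) + d, h⟩ := by
    intro d
    induction d with
    | zero => intro h; exact le_of_eq rfl
    | succ d ih =>
      intro h
      have h1 := ih (by omega)
      have h2 : c ⟨(s : ℕ) + d, by omega⟩ < c ⟨(s : ℕ) + (d + 1), h⟩ := hc (by
        rw [Fin.lt_def]; simp only; omega)
      rw [Fin.lt_def] at h2
      omega
  have hs := s.2
  have h3 := key (k - 1 - s) (by omega)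
  have h4 := (c ⟨(s : ℕ) + (k - 1 - s), by omega⟩).2
  omega

theorem chain_of {n k : ℕ} {A : Fin n → Fin n → Bool} {i j : Fin n}
    (h : ∃ r c : Fin k → Fin n, StrictMono r ∧ StrictMono c ∧
      (∃ a, r a = i) ∧ (∃ b, c b = j) ∧ ∀ a b, A (r a) (c b) = SIF.idMat k a b)
    (hij : A i j = true) :
    ∃ a f g, Ch (EA A) a i j f g ∧ (i : ℕ) + 1 ≤ a + (n - k) ∧ (j : ℕ) + 1 ≤ a + (n - k) := by
  obtain ⟨r, c, hr, hc, ⟨s, hs⟩, ⟨s', hs'⟩, hQ⟩ := h
  have hss : s = s' := by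
    have := hQ s s'
    rw [hs, hs', hij] at this
    simpa [SIF.idMat] using this.symm
  subst hss
  have hk := s.2
  refine ⟨s + 1, fun t => if h : t < k then (r ⟨t, h⟩ : ℕ) else 0,
    fun t => if h : t < k then (c ⟨t, h⟩ : ℕ) else 0, ⟨by omega, ?_, ?_, ?_, ?_, ?_, ?_⟩, ?_, ?_⟩
  · intro a b hab hb
    have h1 : a < k := by omega
    have h2 : b < k := by omega
    simp only [h1, h2, dif_pos]
    exact hr (by rw [Fin.lt_def]; exact hab)
  · intro a b hab hb
    have h1 : a < k := by omega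
    have h2 : b < k := by omega
    simp only [h1, h2, dif_pos]
    exact hc (by rw [Fin.lt_def]; exact hab)
  · intro a ha
    have h1 : a < k := by omega
    simp only [h1, dif_pos]
    rw [mem_EA', hQ]
    simp [SIF.idMat]
  · intro a b ha hb hab
    have h1 : a < k := by omega
    have h2 : b < k := by omega
    simp only [h1, h2, dif_pos]
    rw [mem_EA', hQ]
    simp [SIF.idMat, hab]
  · simp only [Nat.add_sub_cancel, hk, dif_pos]
    rw [← hs]
  · simp only [Nat.add_sub_cancel, hk, dif_pos]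
    rw [← hs']
  · have := mono_bound hr s
    rw [hs] at this
    omega
  · have := mono_bound hc s
    rw [hs'] at this
    omega

theorem hyp_of {n k : ℕ} {A : Fin n → Fin n → Bool}
    (hA : SIF.StronglyForcing (SIF.idMat k) A) : Hyp (EA A) n n (n - k) (n - k) := by
  refine ⟨?_, ?_, ?_⟩
  · intro r c h
    obtain ⟨i, j, _, rfl, rfl⟩ := (mem_EA A).1 h
    exact ⟨i.2, j.2⟩
  · intro r c h _
    obtain ⟨i, j, hij, rfl, rfl⟩ := (mem_EA A).1 h
    obtain ⟨a, f, g, hch, h1, h2⟩ := chain_of (hA i j hij) hij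
    exact ⟨a, f, g, hch, h2⟩
  · intro r c h _
    obtain ⟨i, j, hij, rfl, rfl⟩ := (mem_EA A).1 h
    obtain ⟨a, f, g, hch, h1, h2⟩ := chain_of (hA i j hij) hij
    exact ⟨a, f, g, hch, h1⟩

/-- T2b implies the conjectured formula -/
theorem full_of_T2b (hT : T2b) (n k : ℕ) (hk : 2 ≤ k) (hkn : k ≤ n) :
    (SIF.maxOnes n (SIF.idMat k) : ℤ) = (n : ℤ) ^ 2 - (2 * k - 3) * n + k ^ 2 - 2 * k := by
  obtain ⟨⟨A, hA, hAm⟩, hmax⟩ := SIF.maxOnes_spec (n := n) (SIF.idMat k)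
  apply le_antisymm
  · have h1 := hT (EA A) n (n - k) (by omega) (hyp_of hA)
    rw [EA_card, hAm] at h1
    have h2 : (SIF.maxOnes n (SIF.idMat k) : ℤ) ≤ (((n - k + 1) ^ 2 + (n - 1) : ℕ) : ℤ) := by
      exact_mod_cast h1
    refine h2.trans (le_of_eq ?_)
    have h3 : 1 ≤ n := by omega
    push_cast [Nat.cast_sub hkn, Nat.cast_sub h3]
    ring
  · have h1 := hmax _ (SIF.Sm_strong hk hkn)
    have h2 : ((SIF.ones (SIF.Sm n k) : ℕ) : ℤ) ≤ (SIF.maxOnes n (SIF.idMat k) : ℤ) := by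
      exact_mod_cast h1
    rw [SIF.Sm_ones hk hkn] at h2
    exact h2

/-- the rectangular form implies T2b -/
theorem T2b_of_rect (hR : T2bRect) : T2b := by
  intro E n x hn hE
  by_cases hx : x + 2 ≤ n
  · have h1 := hR E n n x x (n - x) (by omega) le_rfl le_rfl (Or.inl rfl) hE
    rw [min_self] at h1
    have : (x + 1) * (x + 1) = (x + 1) ^ 2 := by ring
    rw [this] at h1
    omega
  · -- trivial range
    have h1 : E ⊆ (Finset.range n) ×ˢ (Finset.range n) := by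
      rintro ⟨r, c⟩ h
      have := hE.sub r c h
      simp [this.1, this.2]
    have h2 := Finset.card_le_card h1
    rw [Finset.card_product, Finset.card_range] at h2
    have h3 : n * n ≤ (x + 1) ^ 2 + (n - 1) := by
      have h4 : n ≤ x + 1 := by omega
      nlinarith
    omega

end SIFT
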