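import Mathlib
import Pool.Agent.H99.SIF.T2b

/-! Basic facts about chains. -/

namespace SIFT
open Finset

/-- degree of a row / of a column -/
def dr (E : Finset (ℕ × ℕ)) (r : ℕ) : ℕ := (E.filter (fun e => e.1 = r)).card
def dc (E : Finset (ℕ × ℕ)) (c : ℕ) : ℕ := (E.filter (fun e => e.2 = c)).card

/-- the longest chains have size `h` -/
def Longest (E : Finset (ℕ × ℕ)) (h : ℕ) (f g : ℕ → ℕ) : Prop :=
  (∃ r c, Ch E h r c f g) ∧ ∀ a r c f' g', Ch E a r c f' g' → a ≤ h

/-- the rectangular statement with the length of the longest chain -/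
def GLS : Prop := ∀ (E : Finset (ℕ × ℕ)) (m n x y h : ℕ) (f g : ℕ → ℕ), Hyp E m n x y →
  Longest E h f g → m ≤ y + h → n ≤ x + h →
  E.card + (m - h) * (n - h) ≤
    h + (m - h) * (x + 1) + (n - h) * (y + 1) + min (m - h) (n - h)

theorem Ch.finj {E : Finset (ℕ × ℕ)} {a r c : ℕ} {f g : ℕ → ℕ} (h : Ch E a r c f g)
    {i j : ℕ} (hi : i < a) (hj : j < a) (hij : f i = f j) : i = j := by
  rcases lt_trichotomy i j with h1 | h1 | h1
  · have := h.fmono i j h1 hj; omega
  · exact h1
  · have := h.fmono j i h1 hi; omega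

theorem Ch.ginj {E : Finset (ℕ × ℕ)} {a r c : ℕ} {f g : ℕ → ℕ} (h : Ch E a r c f g)
    {i j : ℕ} (hi : i < a) (hj : j < a) (hij : g i = g j) : i = j := by
  rcases lt_trichotomy i j with h1 | h1 | h1
  · have := h.gmono i j h1 hj; omega
  · exact h1
  · have := h.gmono j i h1 hi; omega

/-- rows and columns of a chain -/
def Rs (a : ℕ) (f : ℕ → ℕ) : Finset ℕ := (range a).image f

theorem Ch.card_Rs {E : Finset (ℕ × ℕ)} {a r c : ℕ} {f g : ℕ → ℕ} (h : Ch E a r c f g) :
    (Rs a f).card = a := by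
  unfold Rs
  rw [Finset.card_image_of_injOn, Finset.card_range]
  intro i hi j hj hij
  exact h.finj (by simpa using hi) (by simpa using hj) hij

theorem Ch.card_Cs {E : Finset (ℕ × ℕ)} {a r c : ℕ} {f g : ℕ → ℕ} (h : Ch E a r c f g) :
    (Rs a g).card = a := by
  unfold Rs
  rw [Finset.card_image_of_injOn, Finset.card_range]
  intro i hi j hj hij
  exact h.ginj (by simpa using hi) (by simpa using hj) hij

/-- the entries in rows and columns of a chain -/
theorem Ch.on {E : Finset (ℕ × ℕ)} {a r c : ℕ} {f g : ℕ → ℕ} (h : Ch E a r c f g)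
    {r' c' : ℕ} (hr : r' ∈ Rs a f) (hc : c' ∈ Rs a g) (he : (r', c') ∈ E) :
    ∃ i < a, f i = r' ∧ g i = c' := by
  obtain ⟨i, hi, rfl⟩ := Finset.mem_image.1 hr
  obtain ⟨j, hj, rfl⟩ := Finset.mem_image.1 hc
  rw [Finset.mem_range] at hi hj
  by_cases hij : i = j
  · subst hij; exact ⟨i, hi, rfl, rfl⟩
  · exact absurd he (h.off i j hi hj hij)

theorem Ch.transpose {E : Finset (ℕ × ℕ)} {a r c : ℕ} {f g : ℕ → ℕ} (h : Ch E a r c f g) :
    Ch (E.image Prod.swap) a c r g f := by
  have hm : ∀ u v : ℕ, (u, v) ∈ E.image Prod.swap ↔ (v, u) ∈ E := by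
    intro u v
    rw [Finset.mem_image]
    constructor
    · rintro ⟨⟨p, q⟩, hp, he⟩
      rw [Prod.swap_prod_mk, Prod.mk.injEq] at he
      rw [← he.1, ← he.2]; exact hp
    · intro hv; exact ⟨(v, u), hv, rfl⟩
  exact ⟨h.pos, h.gmono, h.fmono, fun i hi => (hm _ _).2 (h.mem i hi),
    fun i j hi hj hij hc => h.off j i hj hi (Ne.symm hij) ((hm _ _).1 hc), h.gl, h.fl⟩

/-- the number of ones in terms of a chain: rows, columns, and the skipped lines -/
theorem card_split {E : Finset (ℕ × ℕ)} {m n h r c : ℕ} {f g : ℕ → ℕ}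
    (hE : ∀ r c, (r, c) ∈ E → r < m ∧ c < n) (hM : Ch E h r c f g) :
    E.card + (E.filter (fun e => e.1 ∉ Rs h f ∧ e.2 ∉ Rs h g)).card =
      h + ∑ ρ ∈ range m \ Rs h f, dr E ρ + ∑ j ∈ range n \ Rs h g, dc E j := by
  classical
  have h1 : ∑ ρ ∈ range m \ Rs h f, dr E ρ = (E.filter (fun e => e.1 ∉ Rs h f)).card := by
    rw [Finset.card_eq_sum_card_fiberwise (f := fun e : ℕ × ℕ => e.1)
      (t := range m \ Rs h f)]
    · apply Finset.sum_congr rfl
      intro ρ hρ
      unfold dr
      congr 1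
      ext e
      simp only [Finset.mem_filter]
      constructor
      · rintro ⟨a, rfl⟩
        exact ⟨⟨a, (Finset.mem_sdiff.1 hρ).2⟩, rfl⟩
      · rintro ⟨⟨a, _⟩, b⟩; exact ⟨a, b⟩
    · intro e he
      have he' := Finset.mem_filter.1 (Finset.mem_coe.1 he)
      have := hE e.1 e.2 he'.1
      simp only [Finset.coe_sdiff, Set.mem_sdiff, Finset.mem_coe, Finset.mem_range]
      exact ⟨this.1, he'.2⟩
  have h2 : ∑ j ∈ range n \ Rs h g, dc E j = (E.filter (fun e => e.2 ∉ Rs h g)).card := by
    rw [Finset.card_eq_sum_card_fiberwise (f := fun e : ℕ × ℕ => e.2)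
      (t := range n \ Rs h g)]
    · apply Finset.sum_congr rfl
      intro ρ hρ
      unfold dc
      congr 1
      ext e
      simp only [Finset.mem_filter]
      constructor
      · rintro ⟨a, rfl⟩
        exact ⟨⟨a, (Finset.mem_sdiff.1 hρ).2⟩, rfl⟩
      · rintro ⟨⟨a, _⟩, b⟩; exact ⟨a, b⟩
    · intro e he
      have he' := Finset.mem_filter.1 (Finset.mem_coe.1 he)
      have := hE e.1 e.2 he'.1
      simp only [Finset.coe_sdiff, Set.mem_sdiff, Finset.mem_coe, Finset.mem_range]
      exact ⟨this.2, he'.2⟩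
  have h3 : (E.filter (fun e => ¬ (e.1 ∉ Rs h f ∨ e.2 ∉ Rs h g))).card = h := by
    have : E.filter (fun e => ¬ (e.1 ∉ Rs h f ∨ e.2 ∉ Rs h g)) =
        (range h).image (fun i => (f i, g i)) := by
      ext ⟨u, v⟩
      simp only [Finset.mem_filter, not_or, not_not, Finset.mem_image, Finset.mem_range,
        Prod.mk.injEq]
      constructor
      · rintro ⟨he, hu, hv⟩
        exact hM.on hu hv he
      · rintro ⟨i, hi, rfl, rfl⟩
        exact ⟨hM.mem i hi, Finset.mem_image.2 ⟨i, by simpa using hi, rfl⟩,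
          Finset.mem_image.2 ⟨i, by simpa using hi, rfl⟩⟩
    rw [this, Finset.card_image_of_injOn, Finset.card_range]
    intro i hi j hj hij
    exact hM.finj (by simpa using hi) (by simpa using hj) (congrArg Prod.fst hij)
  have h4 := Finset.card_filter_add_card_filter_not (s := E)
    (fun e => e.1 ∉ Rs h f ∨ e.2 ∉ Rs h g)
  have h5 := Finset.card_union_add_card_inter (E.filter (fun e => e.1 ∉ Rs h f))
    (E.filter (fun e => e.2 ∉ Rs h g))
  rw [← Finset.filter_or, ← Finset.filter_and] at h5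
  rw [h1, h2]
  omega

/-- the degree of a nonempty column in terms of a chain ending at its bottom element -/
theorem dc_le {E : Finset (ℕ × ℕ)} {a r c : ℕ} {f g : ℕ → ℕ} (hD : Ch E a r c f g)
    (hb : ∀ r', r < r' → (r', c) ∉ E) : dc E c + a ≤ r + 2 := by
  classical
  have h1 : dc E c = ((range (r + 1)).filter (fun i => (i, c) ∈ E)).card := by
    unfold dc
    apply Finset.card_bij (fun e _ => e.1)
    · rintro ⟨u, v⟩ he
      rw [Finset.mem_filter] at he
      simp only at he
      rw [Finset.mem_filter, Finset.mem_range]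
      have hv := he.2
      subst hv
      refine ⟨?_, he.1⟩
      by_contra hlt
      exact hb u (by simp only at hlt; omega) he.1
    · rintro ⟨u, v⟩ he ⟨u', v'⟩ he' h
      rw [Finset.mem_filter] at he he'
      simp only at he he' h
      rw [h, he.2, he'.2]
    · intro i hi
      rw [Finset.mem_filter] at hi
      exact ⟨(i, c), by simp [hi.2], rfl⟩
  have h2 : Disjoint ((range (r + 1)).filter (fun i => (i, c) ∈ E)) ((Rs a f).erase r) := by
    rw [Finset.disjoint_left]
    intro i hi hi'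
    rw [Finset.mem_filter] at hi
    rw [Finset.mem_erase] at hi'
    obtain ⟨t, ht, rfl⟩ := Finset.mem_image.1 hi'.2
    rw [Finset.mem_range] at ht
    have hp := hD.pos
    have htl : t ≠ a - 1 := by
      rintro rfl
      exact hi'.1 hD.fl
    have := hD.off t (a - 1) ht (by omega) htl
    rw [hD.gl] at this
    exact this hi.2
  have h3 : ((range (r + 1)).filter (fun i => (i, c) ∈ E)) ∪ ((Rs a f).erase r) ⊆
      range (r + 1) := by
    apply Finset.union_subset (Finset.filter_subset _ _)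
    intro i hi
    rw [Finset.mem_erase] at hi
    obtain ⟨t, ht, rfl⟩ := Finset.mem_image.1 hi.2
    rw [Finset.mem_range] at ht
    have hp := hD.pos
    rw [Finset.mem_range]
    rcases Nat.lt_or_ge t (a - 1) with h | h
    · have := hD.fmono t (a - 1) h (by omega)
      rw [hD.fl] at this
      omega
    · have : t = a - 1 := by omega
      rw [this, hD.fl]; omega
  have h4 := Finset.card_le_card h3
  rw [Finset.card_union_of_disjoint h2, Finset.card_range, Finset.card_erase_of_mem] at h4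
  · rw [hD.card_Rs] at h4
    rw [h1]
    have hp := hD.pos
    omega
  · have hp := hD.pos
    exact Finset.mem_image.2 ⟨a - 1, by rw [Finset.mem_range]; omega, hD.fl⟩

end SIFT
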