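import Pool.Agent.H99.SIF.Un

/-! Unordered form of MP_008206_co: the frame around a line with many ones. -/

namespace SIFU
open Finset

variable {P Q : Type} [Fintype P] [Fintype Q] [DecidableEq P] [DecidableEq Q]

/-- copies `(R c, C c)` through `(p, c)` for every one `(p, c)` of the row `p` -/
structure Ctx (A : P → Q → Bool) (k x : ℕ) (p : P) (R : Q → Finset P) (C : Q → Finset Q) :
    Prop where
  cP : Fintype.card P = k + x
  cQ : Fintype.card Q = k + x
  hU : U A k
  cp : ∀ c ∈ Nr A p, Cp A k (R c) (C c)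
  pR : ∀ c ∈ Nr A p, p ∈ R c
  cC : ∀ c ∈ Nr A p, c ∈ C c

theorem Ctx_exists {A : P → Q → Bool} {k x : ℕ} (cP : Fintype.card P = k + x)
    (cQ : Fintype.card Q = k + x) (hU : U A k) (p : P) :
    ∃ (R : Q → Finset P) (C : Q → Finset Q), Ctx A k x p R C := by
  have h : ∀ c : Q, ∃ (R : Finset P) (C : Finset Q), c ∈ Nr A p → Cp A k R C ∧ p ∈ R ∧ c ∈ C := by
    intro c
    by_cases hc : c ∈ Nr A p
    · obtain ⟨R, C, h1, h2, h3⟩ := hU p c (mem_Nr.1 hc)
      exact ⟨R, C, fun _ => ⟨h1, h2, h3⟩⟩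
    · exact ⟨∅, ∅, fun h => absurd h hc⟩
  choose R C hRC using h
  exact ⟨R, C, cP, cQ, hU, fun c hc => (hRC c hc).1, fun c hc => (hRC c hc).2.1,
    fun c hc => (hRC c hc).2.2⟩

/-- the columns `c` of `p` such that `r` lies in the copy of `(p, c)` -/
def G (A : P → Q → Bool) (p : P) (R : Q → Finset P) (r : P) : Finset Q :=
  (Nr A p).filter (fun c => r ∈ R c)

/-- the columns `c` of `p` which are zeros of `r` and whose copy does not contain `r` -/
def Hs (A : P → Q → Bool) (p : P) (R : Q → Finset P) (r : P) : Finset Q :=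
  (Nr A p).filter (fun c => A r c = false ∧ r ∉ R c)

namespace Ctx

variable {A : P → Q → Bool} {k x : ℕ} {p : P} {R : Q → Finset P} {C : Q → Finset Q}

theorem zero (h : Ctx A k x p R C) {c : Q} {r : P} (hc : c ∈ Nr A p) (hr : r ∈ R c)
    (hrp : r ≠ p) : A r c = false := by
  by_contra hA
  have hA' : A r c = true := by simpa using hA
  have h1 := (h.cp c hc).col c (h.cC c hc)
  rw [card_eq_one] at h1
  obtain ⟨q, hq⟩ := h1
  have h2 : p ∈ R c ∩ Nc A c := mem_inter.2 ⟨h.pR c hc, mem_Nc.2 (mem_Nr.1 hc)⟩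
  have h3 : r ∈ R c ∩ Nc A c := mem_inter.2 ⟨hr, mem_Nc.2 hA'⟩
  rw [hq, mem_singleton] at h2 h3
  exact hrp (h3.trans h2.symm)

theorem CNP (h : Ctx A k x p R C) {c : Q} (hc : c ∈ Nr A p) : C c ∩ Nr A p = {c} :=
  Cp_inter (h.cp c hc) (h.pR c hc) (h.cC c hc) (mem_Nr.1 hc)

theorem part (h : Ctx A k x p R C) {r : P} (hr : r ≠ p) :
    (Nr A p ∩ Nr A r).card + (G A p R r).card + (Hs A p R r).card = (Nr A p).card := by
  have h1 : Nr A p = (Nr A p ∩ Nr A r) ∪ G A p R r ∪ Hs A p R r := by
    ext c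
    simp only [mem_union, mem_inter, G, Hs, mem_filter]
    constructor
    · intro hc
      by_cases h1 : A r c = true
      · left; left; exact ⟨hc, mem_Nr.2 h1⟩
      · by_cases h2 : r ∈ R c
        · left; right; exact ⟨hc, h2⟩
        · right; exact ⟨hc, by simpa using h1, h2⟩
    · rintro ((⟨h1, _⟩ | ⟨h1, _⟩) | ⟨h1, _⟩) <;> exact h1
  have h2 : Disjoint (Nr A p ∩ Nr A r) (G A p R r) := by
    rw [disjoint_left]
    intro c h1 h2
    rw [mem_inter] at h1
    simp only [G, mem_filter] at h2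
    have := h.zero h2.1 h2.2 hr
    rw [mem_Nr.1 h1.2] at this
    simp at this
  have h3 : Disjoint ((Nr A p ∩ Nr A r) ∪ G A p R r) (Hs A p R r) := by
    rw [disjoint_left]
    intro c h1 h2
    simp only [Hs, mem_filter] at h2
    rw [mem_union] at h1
    rcases h1 with h1 | h1
    · rw [mem_inter, mem_Nr, mem_Nr] at h1
      rw [h1.2] at h2
      simp at h2
    · simp only [G, mem_filter] at h1
      exact h2.2.2 h1.2
  have h4 := card_union_of_disjoint h3
  rw [card_union_of_disjoint h2, ← h1] at h4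
  omega

theorem sumG (h : Ctx A k x p R C) : ∑ r, (G A p R r).card = (Nr A p).card * k := by
  have h1 : ∑ r, (G A p R r).card = ∑ c ∈ Nr A p, (R c).card := by
    simp only [G, card_filter]
    rw [sum_comm]
    apply sum_congr rfl
    intro c _
    rw [← card_filter]
    congr 1
    ext r; simp
  rw [h1, sum_congr rfl (fun c hc => (h.cp c hc).cR), sum_const, smul_eq_mul]

theorem Gp (h : Ctx A k x p R C) : G A p R p = Nr A p := by
  unfold G
  rw [filter_true_of_mem]
  exact h.pR

theorem Hp : Hs A p R p = ∅ := by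
  unfold Hs
  rw [filter_eq_empty_iff]
  intro c hc h1
  rw [mem_Nr.1 hc] at h1
  simp at h1

theorem colcount (h : Ctx A k x p R C) {c : Q} (hc : c ∈ Nr A p) :
    (Nc A c).card + k + (univ.filter (fun r => A r c = false ∧ r ∉ R c)).card = k + x + 1 := by
  have h1 : (univ : Finset P) = (Nc A c ∪ R c) ∪
      univ.filter (fun r => A r c = false ∧ r ∉ R c) := by
    ext r
    simp only [mem_univ, mem_union, mem_filter, true_and, true_iff, mem_Nc]
    by_cases h1 : A r c = true
    · left; left; exact h1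
    · by_cases h2 : r ∈ R c
      · left; right; exact h2
      · right; exact ⟨by simpa using h1, h2⟩
  have h2 : Disjoint (Nc A c ∪ R c) (univ.filter (fun r => A r c = false ∧ r ∉ R c)) := by
    rw [disjoint_left]
    intro r h1 h2
    simp only [mem_filter, mem_univ, true_and] at h2
    rw [mem_union, mem_Nc] at h1
    rcases h1 with h1 | h1
    · rw [h1] at h2; simp at h2
    · exact h2.2 h1
  have h3 := card_union_of_disjoint h2
  rw [← h1, card_univ, h.cP] at h3
  have h4 := card_union_add_card_inter (Nc A c) (R c)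
  have h5 := (h.cp c hc).col c (h.cC c hc)
  rw [inter_comm] at h5
  rw [h5, (h.cp c hc).cR] at h4
  omega

theorem sumH (h : Ctx A k x p R C) :
    ∑ c ∈ Nr A p, (Nc A c).card + (Nr A p).card * k + ∑ r, (Hs A p R r).card =
      (Nr A p).card * (k + x + 1) := by
  have h1 : ∑ r, (Hs A p R r).card =
      ∑ c ∈ Nr A p, (univ.filter (fun r => A r c = false ∧ r ∉ R c)).card := by
    simp only [Hs, card_filter]
    rw [sum_comm]
  have h2 : ∑ c ∈ Nr A p, ((Nc A c).card + k +
      (univ.filter (fun r => A r c = false ∧ r ∉ R c)).card) =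
      ∑ c ∈ Nr A p, (k + x + 1) := sum_congr rfl (fun c hc => h.colcount hc)
  rw [sum_add_distrib, sum_add_distrib, sum_const, sum_const, smul_eq_mul, smul_eq_mul] at h2
  rw [h1]
  omega

/-- the columns outside `N(p)` skipped by the copy of `(p, c)` -/
theorem skipcard (h : Ctx A k x p R C) {c : Q} (hc : c ∈ Nr A p) :
    (univ \ (Nr A p ∪ C c)).card + (Nr A p).card = x + 1 := by
  have h1 := card_union_add_card_inter (Nr A p) (C c)
  have h2 := h.CNP hc
  rw [inter_comm] at h2
  rw [h2, card_singleton, (h.cp c hc).cC] at h1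
  have h3 := card_sdiff_of_subset (subset_univ (Nr A p ∪ C c))
  have h4 := card_le_card (subset_univ (Nr A p ∪ C c))
  rw [card_univ, h.cQ] at h3 h4
  omega

/-- for a row `r` in the copy of `(p, c)`: its ones outside `N(p)` -/
theorem outcard (h : Ctx A k x p R C) {c : Q} {r : P} (hc : c ∈ Nr A p) (hr : r ∈ R c)
    (hrp : r ≠ p) : (Nr A r \ Nr A p).card =
      1 + (Nr A r ∩ (univ \ (Nr A p ∪ C c))).card := by
  have h0 := h.zero hc hr hrp
  have h1 : Nr A r \ Nr A p = (C c ∩ Nr A r) ∪ (Nr A r ∩ (univ \ (Nr A p ∪ C c))) := by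
    ext d
    simp only [mem_sdiff, mem_union, mem_inter, mem_univ, true_and, not_or]
    constructor
    · rintro ⟨h1, h2⟩
      by_cases h3 : d ∈ C c
      · left; exact ⟨h3, h1⟩
      · right; exact ⟨h1, h2, h3⟩
    · rintro (⟨h1, h2⟩ | ⟨h1, h2, h3⟩)
      · refine ⟨h2, fun h3 => ?_⟩
        have h4 : d ∈ C c ∩ Nr A p := mem_inter.2 ⟨h1, h3⟩
        rw [h.CNP hc, mem_singleton] at h4
        rw [h4, mem_Nr, h0] at h2
        simp at h2
      · exact ⟨h1, h2⟩
  have h2 : Disjoint (C c ∩ Nr A r) (Nr A r ∩ (univ \ (Nr A p ∪ C c))) := by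
    rw [disjoint_left]
    intro d h1 h2
    simp only [mem_sdiff, mem_union, mem_inter, mem_univ, true_and, not_or] at h1 h2
    exact h2.2.2 h1.1
  rw [h1, card_union_of_disjoint h2, (h.cp c hc).row r hr]

theorem degsplit (A : P → Q → Bool) (p r : P) :
    (Nr A r).card = (Nr A p ∩ Nr A r).card + (Nr A r \ Nr A p).card := by
  rw [inter_comm]
  exact (card_inter_add_card_sdiff (Nr A r) (Nr A p)).symm

end Ctx

/-- helper33's theorem: a row with `x + 1` ones -/
theorem full_row {A : P → Q → Bool} {k x : ℕ} (cP : Fintype.card P = k + x)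
    (cQ : Fintype.card Q = k + x) (hU : U A k) (p : P) (hp : (Nr A p).card = x + 1) :
    (E A).card ≤ (x + 1) ^ 2 + (k + x - 1) := by
  obtain ⟨R, C, h⟩ := Ctx_exists cP cQ hU p
  have h1 : ∀ r ∈ univ.erase p, (Nr A r).card + (G A p R r).card ≤ x + 2 := by
    intro r hr
    have hrp : r ≠ p := ne_of_mem_erase hr
    rcases (G A p R r).eq_empty_or_nonempty with h0 | ⟨c, hc⟩
    · rw [h0, card_empty]
      have := deg_le cQ hU r
      omega
    · simp only [G, mem_filter] at hc
      have h2 := h.outcard hc.1 hc.2 hrp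
      have h3 := h.skipcard hc.1
      have h4 : (Nr A r ∩ (univ \ (Nr A p ∪ C c))).card ≤ (univ \ (Nr A p ∪ C c)).card :=
        card_le_card inter_subset_right
      have h5 := h.part hrp
      have h6 := Ctx.degsplit A p r
      omega
  have h2 := sum_le_sum h1
  rw [sum_add_distrib, sum_const, smul_eq_mul, card_erase_of_mem (mem_univ p), card_univ, cP] at h2
  have h3 := h.sumG
  have h4 := add_sum_erase univ (fun r => (G A p R r).card) (mem_univ p)
  have h5 := add_sum_erase univ (fun r => (Nr A r).card) (mem_univ p)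
  rw [← card_E_rows] at h5
  beta_reduce at h4 h5
  rw [h.Gp, h3, hp] at h4
  rw [hp] at h5
  have hkx : 1 ≤ k + x := by
    rw [← cP]; exact Fintype.card_pos_iff.2 ⟨p⟩
  obtain ⟨n1, hn1⟩ : ∃ n1, k + x = n1 + 1 := ⟨k + x - 1, by omega⟩
  have e1 : (x + 1) * k + (x + 1) * x = (x + 1) * (n1 + 1) := by rw [← mul_add, hn1]
  rw [hn1] at h2 ⊢
  simp only [Nat.add_sub_cancel] at h2 ⊢
  nlinarith [e1, h2, h4, h5]

end SIFU
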