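import Pool.Agent.H99.SIF.UnF

/-! Unordered form of MP_008206_co: a row with `x` ones, all degrees at most `x`. -/

namespace SIFU
open Finset

variable {P Q : Type} [Fintype P] [Fintype Q] [DecidableEq P] [DecidableEq Q]

/-- two columns in a common copy -/
theorem relc_le {A : P → Q → Bool} {k x : ℕ} (hP : Fintype.card P = k + x) {c c' : Q}
    (h : Rel (fun c r => A r c) k c c') : (Nc A c ∪ Nc A c').card ≤ x + 2 :=
  rel_le (A := fun c r => A r c) hP h

/-- the edge rows without an `h`-column -/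
def F0 (A : P → Q → Bool) (p : P) (R : Q → Finset P) : Finset P :=
  univ.filter (fun r => r ≠ p ∧ (G A p R r).Nonempty ∧ (Nr A r \ Nr A p).card = 2 ∧
    Hs A p R r = ∅)

theorem F0_facts {A : P → Q → Bool} {k x : ℕ} {p : P} {R : Q → Finset P} {C : Q → Finset Q}
    (h : Ctx A k x p R C) (hp : (Nr A p).card = x)
    (v : Q → Q) (hv : ∀ c ∈ Nr A p, univ \ (Nr A p ∪ C c) = {v c})
    {i : ℕ} (hi : 1 ≤ i) (hF : x + 2 + i ≤ (F0 A p R).card) (hC : ∀ c, (Nc A c).card ≤ x)
    (hx : 1 ≤ x) : False := by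
  have memF : ∀ r, r ∈ F0 A p R ↔ r ≠ p ∧ (G A p R r).Nonempty ∧ (Nr A r \ Nr A p).card = 2 ∧
    Hs A p R r = ∅ := by intro r; simp [F0]
  -- dichotomy for h = 0
  have dich : ∀ r ∈ F0 A p R, ∀ c ∈ Nr A p, A r c = true ∨ r ∈ R c := by
    intro r hr c hc
    by_contra hcon
    push Not at hcon
    have h1 : c ∈ Hs A p R r := by
      simp only [Hs, mem_filter]
      exact ⟨hc, by simpa using hcon.1, hcon.2⟩
    rw [((memF r).1 hr).2.2.2] at h1
    simp at h1
  -- v c is not in N(p)
  have vnot : ∀ c ∈ Nr A p, v c ∉ Nr A p ∧ v c ∉ C c := by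
    intro c hc
    have h1 : v c ∈ univ \ (Nr A p ∪ C c) := by rw [hv c hc]; exact mem_singleton_self _
    simpa [not_or] using h1
  have vother : ∀ c ∈ Nr A p, ∀ d, d ∉ Nr A p → d ≠ v c → d ∈ C c := by
    intro c hc d hd hdv
    by_contra hcon
    have h1 : d ∈ univ \ (Nr A p ∪ C c) := by simp [hd, hcon]
    rw [hv c hc, mem_singleton] at h1
    exact hdv h1
  -- rows of F0 in R c contain v c
  have hasv : ∀ c ∈ Nr A p, ∀ r ∈ F0 A p R, r ∈ R c → A r (v c) = true := by
    intro c hc r hr hrc
    have h1 := (memF r).1 hr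
    have h2 := h.outcard hc hrc h1.1
    rw [h1.2.2.1, hv c hc] at h2
    by_contra hcon
    have h3 : Nr A r ∩ {v c} = ∅ := by
      ext d
      simp only [mem_inter, mem_singleton, notMem_empty, iff_false, not_and]
      rintro h4 rfl
      exact hcon (mem_Nr.1 h4)
    rw [h3, card_empty] at h2
    omega
  -- (b)
  have hb : ∀ c ∈ Nr A p, (F0 A p R).card + 1 ≤
      ((F0 A p R).filter (fun r => r ∈ R c)).card + (Nc A c).card := by
    intro c hc
    have h1 : F0 A p R ⊆ (F0 A p R).filter (fun r => r ∈ R c) ∪ (Nc A c).erase p := by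
      intro r hr
      rcases dich r hr c hc with h2 | h2
      · apply mem_union_right
        rw [mem_erase]
        exact ⟨((memF r).1 hr).1, mem_Nc.2 h2⟩
      · apply mem_union_left
        rw [mem_filter]; exact ⟨hr, h2⟩
    have h2 := card_le_card h1
    have h3 := card_union_le ((F0 A p R).filter (fun r => r ∈ R c)) ((Nc A c).erase p)
    have h4 : p ∈ Nc A c := mem_Nc.2 (mem_Nr.1 hc)
    have h5 := card_erase_add_one h4
    omega
  -- (c)
  have hc : ∀ c ∈ Nr A p, ¬ Rel (fun c r => A r c) k (v c) c := by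
    intro c hc hrel
    have h1 := relc_le (A := A) h.cP hrel
    have h2 : (F0 A p R).filter (fun r => r ∈ R c) ∪ Nc A c ⊆ Nc A (v c) ∪ Nc A c := by
      apply union_subset_union_left
      intro r hr
      rw [mem_filter] at hr
      exact mem_Nc.2 (hasv c hc r hr.1 hr.2)
    have h3 : Disjoint ((F0 A p R).filter (fun r => r ∈ R c)) (Nc A c) := by
      rw [disjoint_left]
      intro r hr hr2
      rw [mem_filter] at hr
      have := h.zero hc hr.2 ((memF r).1 hr.1).1
      rw [mem_Nc.1 hr2] at this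
      simp at this
    have h4 := card_le_card h2
    rw [card_union_of_disjoint h3] at h4
    have h5 := hb c hc
    omega
  -- (d)
  have hd : ∀ r ∈ F0 A p R, ∀ u ∈ Nr A r \ Nr A p, ∃ c ∈ G A p R r, v c = u := by
    intro r hr u hu
    by_contra hcon
    push Not at hcon
    have hr' := (memF r).1 hr
    have h1 := card_erase_of_mem hu
    rw [hr'.2.2.1] at h1
    obtain ⟨u', hu'⟩ := card_eq_one.1 h1
    have hu2 : u' ∈ (Nr A r \ Nr A p).erase u := by rw [hu']; exact mem_singleton_self _
    rw [mem_erase, mem_sdiff] at hu2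
    have h2 : ∀ c ∈ G A p R r, v c = u' := by
      intro c hcG
      have hcG' := hcG
      simp only [G, mem_filter] at hcG'
      have h3 : v c ∈ (Nr A r \ Nr A p).erase u := by
        rw [mem_erase, mem_sdiff]
        exact ⟨hcon c hcG, mem_Nr.2 (hasv c hcG'.1 r hr hcG'.2), (vnot c hcG'.1).1⟩
      rw [hu', mem_singleton] at h3
      exact h3
    obtain ⟨R', C', hC', hrR', huC'⟩ := h.hU r u' (mem_Nr.1 hu2.2.1)
    have h3 : (Nr A r).erase u' ∪ G A p R r ⊆ univ \ C' := by
      intro d hd
      rw [mem_sdiff]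
      refine ⟨mem_univ _, fun hdC => ?_⟩
      rw [mem_union] at hd
      rcases hd with hd | hd
      · rw [mem_erase] at hd
        have h4 := Cp_inter hC' hrR' huC' (mem_Nr.1 hu2.2.1)
        have h5 : d ∈ C' ∩ Nr A r := mem_inter.2 ⟨hdC, hd.2⟩
        rw [h4, mem_singleton] at h5
        exact hd.1 h5
      · have hdG := hd
        simp only [G, mem_filter] at hdG
        apply hc d hdG.1
        rw [h2 d hd]
        exact ⟨C', R', Cp_swap hC', huC', hdC⟩
    have h4 : Disjoint ((Nr A r).erase u') (G A p R r) := by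
      rw [disjoint_left]
      intro d h5 h6
      rw [mem_erase] at h5
      simp only [G, mem_filter] at h6
      have := h.zero h6.1 h6.2 hr'.1
      rw [mem_Nr.1 h5.2] at this
      simp at this
    have h5 := card_le_card h3
    rw [card_union_of_disjoint h4, card_sdiff_of_subset (subset_univ _), hC'.cC, card_univ,
      h.cQ] at h5
    have h6 := card_erase_add_one hu2.2.1
    have h7 := Ctx.degsplit A p r
    have h8 := h.part hr'.1
    rw [hr'.2.2.2, card_empty, hp] at h8
    rw [hr'.2.2.1] at h7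
    omega
  -- (e)
  obtain ⟨c0, hc0⟩ : (Nr A p).Nonempty := by
    rw [← card_pos, hp]; omega
  have h1 := hb c0 hc0
  have h2 := hC c0
  obtain ⟨r1, hr1, r2, hr2, hr12⟩ := (one_lt_card (s := (F0 A p R).filter (fun r => r ∈ R c0))).1
    (by omega)
  rw [mem_filter] at hr1 hr2
  obtain ⟨m1, hm1⟩ := card_eq_one.1 ((h.cp c0 hc0).row r1 hr1.2)
  obtain ⟨m2, hm2⟩ := card_eq_one.1 ((h.cp c0 hc0).row r2 hr2.2)
  have hm1' : m1 ∈ C c0 ∩ Nr A r1 := by rw [hm1]; exact mem_singleton_self _
  have hm2' : m2 ∈ C c0 ∩ Nr A r2 := by rw [hm2]; exact mem_singleton_self _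
  rw [mem_inter] at hm1' hm2'
  have hm12 : m2 ∉ Nr A r1 := by
    intro h3
    have h4 : m2 ∈ C c0 ∩ Nr A r1 := mem_inter.2 ⟨hm2'.1, h3⟩
    obtain ⟨q, hq⟩ := card_eq_one.1 ((h.cp c0 hc0).col m2 hm2'.1)
    have h5 : r1 ∈ R c0 ∩ Nc A m2 := mem_inter.2 ⟨hr1.2, mem_Nc.2 (mem_Nr.1 h3)⟩
    have h6 : r2 ∈ R c0 ∩ Nc A m2 := mem_inter.2 ⟨hr2.2, mem_Nc.2 (mem_Nr.1 hm2'.2)⟩
    rw [hq, mem_singleton] at h5 h6
    exact hr12 (h5.trans h6.symm)
  have hm2p : m2 ∉ Nr A p := by
    intro h3
    have h4 : m2 ∈ C c0 ∩ Nr A p := mem_inter.2 ⟨hm2'.1, h3⟩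
    rw [h.CNP hc0, mem_singleton] at h4
    have h5 := h.zero hc0 hr2.2 ((memF r2).1 hr2.1).1
    rw [← h4, mem_Nr.1 hm2'.2] at h5
    simp at h5
  obtain ⟨c, hcG, hcv⟩ := hd r2 hr2.1 m2 (mem_sdiff.2 ⟨hm2'.2, hm2p⟩)
  simp only [G, mem_filter] at hcG
  have hcp := hcG.1
  have hr1F := (memF r1).1 hr1.1
  have hAc : A r1 c = true := by
    rcases dich r1 hr1.1 c hcp with h3 | h3
    · exact h3
    · exfalso
      have h4 := hasv c hcp r1 hr1.1 h3
      rw [hcv] at h4
      exact hm12 (mem_Nr.2 h4)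
  obtain ⟨Rs, Cs, hCs, hr1s, hcs⟩ := h.hU r1 c hAc
  have hint := Cp_inter hCs hr1s hcs hAc
  have hlC : m2 ∉ Cs := by
    intro h3
    apply hc c hcp
    rw [hcv]
    exact ⟨Cs, Rs, Cp_swap hCs, h3, hcs⟩
  have hsub : (Nr A p \ Cs) ∪ ((Nr A r1 \ Nr A p) ∪ {m2}) ⊆ univ \ Cs := by
    intro d hd
    rw [mem_sdiff]
    refine ⟨mem_univ _, fun hdC => ?_⟩
    rw [mem_union, mem_union, mem_sdiff, mem_sdiff, mem_singleton] at hd
    rcases hd with hd | hd | hd
    · exact hd.2 hdC
    · have h5 : d ∈ Cs ∩ Nr A r1 := mem_inter.2 ⟨hdC, hd.1⟩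
      rw [hint, mem_singleton] at h5
      rw [h5] at hd
      exact hd.2 hcp
    · rw [hd] at hdC; exact hlC hdC
  have hdis1 : Disjoint (Nr A r1 \ Nr A p) {m2} := by
    rw [disjoint_singleton_right, mem_sdiff]
    exact fun h3 => hm12 h3.1
  have hdis2 : Disjoint (Nr A p \ Cs) ((Nr A r1 \ Nr A p) ∪ {m2}) := by
    rw [disjoint_left]
    intro d h3 h4
    rw [mem_sdiff] at h3
    rw [mem_union, mem_sdiff, mem_singleton] at h4
    rcases h4 with h4 | h4
    · exact h4.2 h3.1
    · rw [h4] at h3; exact hm2p h3.1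
  have h3 := card_le_card hsub
  rw [card_union_of_disjoint hdis2, card_union_of_disjoint hdis1, card_singleton,
    card_sdiff_of_subset (subset_univ _), hCs.cC, card_univ, h.cQ, hr1F.2.2.1] at h3
  have h4 := card_inter_add_card_sdiff (Nr A p) Cs
  rw [hp] at h4
  obtain ⟨c', hc', hcc'⟩ : ∃ c' ∈ Nr A p ∩ Cs, c' ≠ c := by
    apply exists_mem_ne
    omega
  rw [mem_inter] at hc'
  have hAc' : c' ∉ Nr A r1 := by
    intro h5
    have h6 : c' ∈ Cs ∩ Nr A r1 := mem_inter.2 ⟨hc'.2, h5⟩
    rw [hint, mem_singleton] at h6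
    exact hcc' h6
  have hr1c' : r1 ∈ R c' := by
    rcases dich r1 hr1.1 c' hc'.1 with h5 | h5
    · exact absurd (mem_Nr.2 h5) hAc'
    · exact h5
  have hvne : v c' ≠ v c := by
    intro h5
    have h6 := hasv c' hc'.1 r1 hr1.1 hr1c'
    rw [h5, hcv] at h6
    exact hm12 (mem_Nr.2 h6)
  have hrel := relc_le (A := A) h.cP (⟨Cs, Rs, Cp_swap hCs, hcs, hc'.2⟩ :
    Rel (fun c r => A r c) k c c')
  -- (f)
  have hvC : v c' ∈ C c := vother c hcp (v c') (vnot c' hc'.1).1 hvne
  have hsub2 : F0 A p R ⊆ (Nc A c ∪ Nc A c').erase p ∪ (R c ∩ Nc A (v c')) := by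
    intro r hr
    have hrp := ((memF r).1 hr).1
    by_cases h5 : A r c = true
    · apply mem_union_left
      rw [mem_erase]
      exact ⟨hrp, mem_union_left _ (mem_Nc.2 h5)⟩
    · by_cases h6 : A r c' = true
      · apply mem_union_left
        rw [mem_erase]
        exact ⟨hrp, mem_union_right _ (mem_Nc.2 h6)⟩
      · apply mem_union_right
        have h7 : r ∈ R c := (dich r hr c hcp).resolve_left h5
        have h8 : r ∈ R c' := (dich r hr c' hc'.1).resolve_left h6
        exact mem_inter.2 ⟨h7, mem_Nc.2 (hasv c' hc'.1 r hr h8)⟩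
  have h5 := card_le_card hsub2
  have h6 := card_union_le ((Nc A c ∪ Nc A c').erase p) (R c ∩ Nc A (v c'))
  rw [(h.cp c hcp).col (v c') hvC] at h6
  have h7 : p ∈ Nc A c ∪ Nc A c' := mem_union_left _ (mem_Nc.2 (mem_Nr.1 hcp))
  have h8 := card_erase_add_one h7
  omega

/-- a row with `x` ones, all degrees at most `x` -/
theorem almost_full_row {A : P → Q → Bool} {k x : ℕ} (cP : Fintype.card P = k + x)
    (cQ : Fintype.card Q = k + x) (hU : U A k) (hR : ∀ r, (Nr A r).card ≤ x)
    (hC : ∀ c, (Nc A c).card ≤ x) (hx : 1 ≤ x) (p : P) (hp : (Nr A p).card = x) :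
    (E A).card ≤ (x + 1) ^ 2 + (k + x - 1) := by
  obtain ⟨R, C, h⟩ := Ctx_exists cP cQ hU p
  have hkx : 1 ≤ k + x := by omega
  obtain ⟨n1, hn1⟩ : ∃ n1, k + x = n1 + 1 := ⟨k + x - 1, by omega⟩
  have hskip : ∀ c ∈ Nr A p, ∃ v, univ \ (Nr A p ∪ C c) = {v} := by
    intro c hc
    have h1 := h.skipcard hc
    rw [← card_eq_one]
    omega
  have hv' : ∀ c : Q, ∃ v : Q, c ∈ Nr A p → univ \ (Nr A p ∪ C c) = {v} := by
    intro c
    by_cases hc : c ∈ Nr A p
    · obtain ⟨v, hv⟩ := hskip c hc
      exact ⟨v, fun _ => hv⟩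
    · exact ⟨c, fun h => absurd h hc⟩
  choose v hv using hv'
  -- the ones outside N(p)
  have hout : ∀ r, r ≠ p → (G A p R r).Nonempty → (Nr A r \ Nr A p).card = 1 ∨
      (Nr A r \ Nr A p).card = 2 := by
    intro r hrp ⟨c, hc⟩
    simp only [G, mem_filter] at hc
    have h1 := h.outcard hc.1 hc.2 hrp
    rw [hv c hc.1] at h1
    have h2 : (Nr A r ∩ {v c}).card ≤ 1 := by
      have := card_le_card (inter_subset_right (s₁ := Nr A r) (s₂ := {v c}))
      rwa [card_singleton] at this
    omega
  by_contra hcon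
  rw [hn1, Nat.add_sub_cancel] at hcon
  push Not at hcon
  set ed : P → Prop := fun r => (G A p R r).Nonempty ∧ (Nr A r \ Nr A p).card = 2 with hed
  classical
  have hsum : ∀ r ∈ univ.erase p, (Nr A r).card + (G A p R r).card +
      (if G A p R r = ∅ then 1 else (Hs A p R r).card) ≤ x + 1 + (if ed r then 1 else 0) := by
    intro r hr
    have hrp : r ≠ p := ne_of_mem_erase hr
    rcases (G A p R r).eq_empty_or_nonempty with h0 | h0
    · have hg0 : (G A p R r).card = 0 := by rw [h0, card_empty]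
      rw [hg0, if_pos h0]
      have := hR r
      omega
    · have h1 := h.part hrp
      have h2 := Ctx.degsplit A p r
      rw [if_neg h0.ne_empty]
      rcases hout r hrp h0 with h3 | h3
      · omega
      · have : ed r := ⟨h0, h3⟩
        rw [if_pos this]
        omega
  have hS := sum_le_sum hsum
  rw [sum_add_distrib, sum_add_distrib, sum_add_distrib, sum_const, smul_eq_mul,
    card_erase_of_mem (mem_univ p), card_univ, cP, hn1, Nat.add_sub_cancel] at hS
  have h3 := h.sumG
  have h4 := add_sum_erase univ (fun r => (G A p R r).card) (mem_univ p)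
  have h5 := add_sum_erase univ (fun r => (Nr A r).card) (mem_univ p)
  rw [← card_E_rows] at h5
  beta_reduce at h4 h5
  rw [h.Gp, h3, hp] at h4
  rw [hp] at h5
  have e1 : x * k + x * x = x * (n1 + 1) := by rw [← mul_add, hn1]
  -- e
  have he : ∑ r ∈ univ.erase p, (if ed r then 1 else 0) =
      ((univ.erase p).filter ed).card := by rw [card_filter]
  rw [he] at hS
  have hi : ∑ r ∈ univ.erase p, (if G A p R r = ∅ then 1 else (Hs A p R r).card) =
      ((univ.erase p).filter (fun r => G A p R r = ∅)).card +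
      ∑ r ∈ (univ.erase p).filter (fun r => ¬ G A p R r = ∅), (Hs A p R r).card := by
    rw [sum_ite, sum_const, smul_eq_mul, mul_one]
  rw [hi] at hS
  set i := ((univ.erase p).filter (fun r => G A p R r = ∅)).card with hidef
  set H := ∑ r ∈ (univ.erase p).filter (fun r => ¬ G A p R r = ∅), (Hs A p R r).card with hHdef
  set e := ((univ.erase p).filter ed).card with hedef
  have hmain : x + 2 + i + H ≤ e := by nlinarith [e1, hS, h4, h5, hcon]
  -- F0
  have hF : x + 2 + i ≤ (F0 A p R).card := by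
    have h6 : (univ.erase p).filter ed ⊆ F0 A p R ∪
        ((univ.erase p).filter (fun r => ¬ G A p R r = ∅)).filter
          (fun r => 1 ≤ (Hs A p R r).card) := by
      intro r hr
      rw [mem_filter, mem_erase] at hr
      by_cases h7 : Hs A p R r = ∅
      · apply mem_union_left
        simp only [F0, mem_filter, mem_univ, true_and]
        exact ⟨hr.1.1, hr.2.1, hr.2.2, h7⟩
      · apply mem_union_right
        rw [mem_filter, mem_filter, mem_erase]
        exact ⟨⟨hr.1, hr.2.1.ne_empty⟩, card_pos.2 (nonempty_iff_ne_empty.2 h7)⟩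
    have h7 := card_le_card h6
    have h8 := card_union_le (F0 A p R) (((univ.erase p).filter
      (fun r => ¬ G A p R r = ∅)).filter (fun r => 1 ≤ (Hs A p R r).card))
    have h9 : (((univ.erase p).filter (fun r => ¬ G A p R r = ∅)).filter
        (fun r => 1 ≤ (Hs A p R r).card)).card ≤ H := by
      rw [card_eq_sum_ones]
      refine (sum_le_sum (fun r hr => ?_)).trans (sum_le_sum_of_subset (filter_subset _ _))
      exact (mem_filter.1 hr).2
    omega
  have hi1 : 1 ≤ i := by
    by_contra hi0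
    have hi0' : i = 0 := by omega
    rw [hidef, card_eq_zero, filter_eq_empty_iff] at hi0'
    -- all rows but p have G nonempty
    have hG : ∀ r, r ≠ p → (G A p R r).Nonempty := by
      intro r hr
      rw [nonempty_iff_ne_empty]
      exact hi0' (mem_erase.2 ⟨hr, mem_univ r⟩)
    have hfil : (univ.erase p).filter (fun r => ¬ G A p R r = ∅) = univ.erase p := by
      rw [filter_true_of_mem]
      intro r hr
      exact hi0' hr
    have hH2 : H = ∑ r, (Hs A p R r).card := by
      rw [hHdef, hfil]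
      have := add_sum_erase univ (fun r => (Hs A p R r).card) (mem_univ p)
      beta_reduce at this
      rw [Ctx.Hp, card_empty, zero_add] at this
      exact this
    have h6 := h.sumH
    rw [← hH2, hp] at h6
    have h7 : ∑ c ∈ Nr A p, (Nc A c).card ≤ x * x := by
      have := sum_le_sum (fun c (_ : c ∈ Nr A p) => hC c)
      rw [sum_const, smul_eq_mul, hp] at this
      exact this
    have hHx : x ≤ H := by nlinarith [h6, h7]
    -- singles
    set S1 := (univ.erase p).filter (fun r => (Nr A r \ Nr A p).card = 1) with hS1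
    have hS1e : S1.card + e = n1 := by
      have h8 : (univ.erase p).filter ed = (univ.erase p).filter
          (fun r => ¬ (Nr A r \ Nr A p).card = 1) := by
        apply filter_congr
        intro r hr
        have hrp : r ≠ p := ne_of_mem_erase hr
        rcases hout r hrp (hG r hrp) with h9 | h9
        · simp [hed, h9]
        · simp [hed, h9, hG r hrp]
      rw [hedef, h8, hS1, card_filter_add_card_filter_not, card_erase_of_mem (mem_univ p),
        card_univ, cP, hn1, Nat.add_sub_cancel]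
    set J := (univ \ Nr A p).filter (fun j => ∀ r ∈ S1, A r j = false) with hJ
    have hO : (univ \ Nr A p).card = k := by
      rw [card_sdiff_of_subset (subset_univ _), card_univ, cQ, hp]; omega
    have hJk : k ≤ J.card + S1.card := by
      have h8 : (univ \ Nr A p) ⊆ J ∪ S1.biUnion (fun r => Nr A r \ Nr A p) := by
        intro j hj
        by_cases h9 : ∀ r ∈ S1, A r j = false
        · apply mem_union_left
          rw [hJ, mem_filter]; exact ⟨hj, h9⟩
        · apply mem_union_right
          push Not at h9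
          obtain ⟨r, hr, hrj⟩ := h9
          rw [mem_biUnion]
          refine ⟨r, hr, ?_⟩
          rw [mem_sdiff] at hj ⊢
          exact ⟨mem_Nr.2 (by simpa using hrj), hj.2⟩
      have h9 := card_le_card h8
      have h10 := card_union_le J (S1.biUnion (fun r => Nr A r \ Nr A p))
      have h11 : (S1.biUnion (fun r => Nr A r \ Nr A p)).card ≤ S1.card * 1 := by
        apply card_biUnion_le_card_mul
        intro r hr
        rw [hS1, mem_filter] at hr
        exact hr.2.le
      omega
    obtain ⟨c, hc⟩ : (Nr A p).Nonempty := by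
      rw [← card_pos, hp]; omega
    have hJv : J.erase (v c) ⊆ (Nc A (v c)).biUnion (fun r => C c ∩ Nr A r) ∩
        ((R c ∩ Nc A (v c)).biUnion (fun r => C c ∩ Nr A r)) := by
      intro j hj
      rw [mem_erase, hJ, mem_filter, mem_sdiff] at hj
      obtain ⟨hjv, ⟨_, hjp⟩, hjS⟩ := hj
      have hjC : j ∈ C c := by
        by_contra h8
        have h9 : j ∈ univ \ (Nr A p ∪ C c) := by simp [hjp, h8]
        rw [hv c hc, mem_singleton] at h9
        exact hjv h9
      obtain ⟨r, hr⟩ := card_eq_one.1 ((h.cp c hc).col j hjC)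
      have hr' : r ∈ R c ∩ Nc A j := by rw [hr]; exact mem_singleton_self _
      rw [mem_inter, mem_Nc] at hr'
      have hrp : r ≠ p := by
        rintro rfl
        exact hjp (mem_Nr.2 hr'.2)
      have h8 : ¬ (Nr A r \ Nr A p).card = 1 := by
        intro h9
        have h10 := hjS r (by rw [hS1, mem_filter, mem_erase]; exact ⟨⟨hrp, mem_univ _⟩, h9⟩)
        rw [hr'.2] at h10
        simp at h10
      have h9 := (hout r hrp (hG r hrp)).resolve_left h8
      have h10 := h.outcard hc hr'.1 hrp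
      rw [h9, hv c hc] at h10
      have h11 : A r (v c) = true := by
        by_contra hcon
        have h3 : Nr A r ∩ {v c} = ∅ := by
          ext d
          simp only [mem_inter, mem_singleton, notMem_empty, iff_false, not_and]
          rintro h4 rfl
          exact hcon (mem_Nr.1 h4)
        rw [h3, card_empty] at h10
        omega
      rw [mem_inter, mem_biUnion, mem_biUnion]
      refine ⟨⟨r, mem_Nc.2 h11, ?_⟩, ⟨r, mem_inter.2 ⟨hr'.1, mem_Nc.2 h11⟩, ?_⟩⟩
      · exact mem_inter.2 ⟨hjC, mem_Nr.2 hr'.2⟩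
      · exact mem_inter.2 ⟨hjC, mem_Nr.2 hr'.2⟩
    have h8 := card_le_card hJv
    have h9 := card_le_card (inter_subset_right (s₁ := (Nc A (v c)).biUnion
      (fun r => C c ∩ Nr A r)) (s₂ := (R c ∩ Nc A (v c)).biUnion (fun r => C c ∩ Nr A r)))
    have h10 : ((R c ∩ Nc A (v c)).biUnion (fun r => C c ∩ Nr A r)).card ≤
        (R c ∩ Nc A (v c)).card * 1 := by
      apply card_biUnion_le_card_mul
      intro r hr
      exact ((h.cp c hc).row r (mem_inter.1 hr).1).le
    have h11 := card_le_card (inter_subset_right (s₁ := R c) (s₂ := Nc A (v c)))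
    have h12 := hC (v c)
    have h13 := pred_card_le_card_erase (s := J) (a := v c)
    omega
  exact F0_facts h hp v (fun c hc => hv c hc) hi1 hF hC hx

/-- a line with at most `k` zeros -/
theorem line_bound {A : P → Q → Bool} {k x : ℕ} (cP : Fintype.card P = k + x)
    (cQ : Fintype.card Q = k + x) (hU : U A k) (hx : 1 ≤ x)
    (hl : (∃ r, x ≤ (Nr A r).card) ∨ ∃ c, x ≤ (Nc A c).card) :
    (E A).card ≤ (x + 1) ^ 2 + (k + x - 1) := by
  have hswapE : (E (fun c r => A r c)).card = (E A).card := by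
    rw [card_E_rows (fun c r => A r c), card_E_cols A]
    rfl
  by_cases h1 : ∃ r, (Nr A r).card = x + 1
  · obtain ⟨r, hr⟩ := h1
    exact full_row cP cQ hU r hr
  by_cases h2 : ∃ c, (Nc A c).card = x + 1
  · obtain ⟨c, hc⟩ := h2
    have := full_row (A := fun c r => A r c) cQ cP (U_swap hU) c hc
    rw [hswapE] at this
    exact this
  push Not at h1 h2
  have hR : ∀ r, (Nr A r).card ≤ x := fun r => by
    have := deg_le cQ hU r
    have := h1 r
    omega
  have hC : ∀ c, (Nc A c).card ≤ x := fun c => by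
    have h3 : (Nc A c).card ≤ x + 1 := deg_le (A := fun c r => A r c) cP (U_swap hU) c
    have := h2 c
    omega
  rcases hl with ⟨r, hr⟩ | ⟨c, hc⟩
  · exact almost_full_row cP cQ hU hR hC hx r (le_antisymm (hR r) hr)
  · have := almost_full_row (A := fun c r => A r c) cQ cP (U_swap hU) hC hR hx c
      (le_antisymm (hC c) hc)
    rw [hswapE] at this
    exact this

end SIFU
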