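import Mathlib

/-! A form of the theorem of Koenig (maximal matching and deficiency). -/

namespace SIFU
open Finset

theorem koenig {α β : Type} [DecidableEq α] [DecidableEq β] [Inhabited β] (V : Finset α)
    (NB : α → Finset β) : ∃ (V' K S : Finset α) (uu : α → β),
    K ∪ V' = V ∧ Disjoint K V' ∧ V' ⊆ S ∧ S ⊆ V ∧ (∀ v ∈ K, uu v ∈ NB v) ∧
    (∀ v ∈ K, ∀ v' ∈ K, uu v = uu v' → v = v') ∧
    (∀ v ∈ S, ∀ u ∈ NB v, ∃ v' ∈ K, v' ∈ S ∧ uu v' = u) := by
  classical
  -- a set of maximal deficiency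
  obtain ⟨S, hS, hmax⟩ := exists_max_image V.powerset
    (fun S => (S.card : ℤ) - (S.biUnion NB).card) ⟨∅, by simp⟩
  rw [mem_powerset] at hS
  have hmax' : ∀ T ⊆ V, (T.card : ℤ) - (T.biUnion NB).card ≤ S.card - (S.biUnion NB).card :=
    fun T hT => hmax T (mem_powerset.2 hT)
  set Γ := S.biUnion NB with hΓ
  -- matching of V \ S outside Γ
  have h1 : ∀ s : Finset {v // v ∈ V \ S}, s.card ≤
      (s.biUnion (fun v => NB v.1 \ Γ)).card := by
    intro s
    set T := s.map (Function.Embedding.subtype _) with hT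
    have hTV : T ⊆ V \ S := by
      intro v hv
      rw [hT, mem_map] at hv
      obtain ⟨a, _, rfl⟩ := hv
      exact a.2
    have hTc : T.card = s.card := card_map _
    have h2 := hmax' (S ∪ T) (union_subset hS (hTV.trans sdiff_subset))
    have hdis : Disjoint S T := by
      rw [disjoint_right]
      intro v hv hvS
      exact (mem_sdiff.1 (hTV hv)).2 hvS
    rw [card_union_of_disjoint hdis] at h2
    have h3 : (S ∪ T).biUnion NB = Γ ∪ (s.biUnion (fun v => NB v.1 \ Γ)) := by
      ext u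
      simp only [mem_biUnion, mem_union, hΓ, hT, mem_map, Function.Embedding.subtype_apply,
        mem_sdiff]
      constructor
      · rintro ⟨v, hv | ⟨a, ha, rfl⟩, hu⟩
        · left; exact ⟨v, hv, hu⟩
        · by_cases h : ∃ v ∈ S, u ∈ NB v
          · left; exact h
          · right; exact ⟨a, ha, hu, h⟩
      · rintro (⟨v, hv, hu⟩ | ⟨a, ha, hu, _⟩)
        · exact ⟨v, Or.inl hv, hu⟩
        · exact ⟨a.1, Or.inr ⟨a, ha, rfl⟩, hu⟩
    have h4 : Disjoint Γ (s.biUnion (fun v => NB v.1 \ Γ)) := by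
      rw [disjoint_right]
      intro u hu
      rw [mem_biUnion] at hu
      obtain ⟨a, _, ha⟩ := hu
      exact (mem_sdiff.1 ha).2
    rw [h3, card_union_of_disjoint h4] at h2
    push_cast at h2
    rw [hTc] at h2
    omega
  obtain ⟨f, hf1, hf2⟩ := (all_card_le_biUnion_card_iff_exists_injective _).1 h1
  -- matching of Γ into S
  have h2 : ∀ s : Finset {u // u ∈ Γ}, s.card ≤
      (s.biUnion (fun u => S.filter (fun v => u.1 ∈ NB v))).card := by
    intro s
    set N := s.biUnion (fun u => S.filter (fun v => u.1 ∈ NB v)) with hN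
    have hNS : N ⊆ S := by
      intro v hv
      rw [hN, mem_biUnion] at hv
      obtain ⟨_, _, h⟩ := hv
      exact (mem_filter.1 h).1
    have h3 := hmax' (S \ N) (sdiff_subset.trans hS)
    have h4 : ((S \ N).biUnion NB) ⊆ Γ \ (s.map (Function.Embedding.subtype _)) := by
      intro u hu
      rw [mem_biUnion] at hu
      obtain ⟨v, hv, huv⟩ := hu
      rw [mem_sdiff] at hv ⊢
      refine ⟨mem_biUnion.2 ⟨v, hv.1, huv⟩, ?_⟩
      intro hus
      rw [mem_map] at hus
      obtain ⟨a, ha, rfl⟩ := hus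
      apply hv.2
      rw [hN, mem_biUnion]
      exact ⟨a, ha, mem_filter.2 ⟨hv.1, huv⟩⟩
    have h5 := card_le_card h4
    have h6 : (s.map (Function.Embedding.subtype _)) ⊆ Γ := by
      intro u hu
      rw [mem_map] at hu
      obtain ⟨a, _, rfl⟩ := hu
      exact a.2
    rw [card_sdiff_of_subset h6, card_map] at h5
    have h7 := card_le_card h6
    rw [card_map] at h7
    rw [card_sdiff_of_subset hNS] at h3
    have h8 := card_le_card hNS
    rw [Nat.cast_sub h8] at h3
    omega
  obtain ⟨g, hg1, hg2⟩ := (all_card_le_biUnion_card_iff_exists_injective _).1 h2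
  -- image of g
  set J := (univ : Finset {u // u ∈ Γ}).image g with hJ
  have hJS : J ⊆ S := by
    intro v hv
    rw [hJ, mem_image] at hv
    obtain ⟨u, _, rfl⟩ := hv
    exact (mem_filter.1 (hg2 u)).1
  have hginv : ∀ v : α, ∃ u : β, v ∈ J → ∃ h : u ∈ Γ, g ⟨u, h⟩ = v := by
    intro v
    by_cases hv : v ∈ J
    · rw [hJ, mem_image] at hv
      obtain ⟨u, _, hu⟩ := hv
      exact ⟨u.1, fun _ => ⟨u.2, hu⟩⟩
    · exact ⟨default, fun h => absurd h hv⟩
  choose gi hgi using hginv
  refine ⟨S \ J, (V \ S) ∪ J, S, fun v => if h : v ∈ V \ S then f ⟨v, h⟩ else gi v,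
    ?_, ?_, sdiff_subset, hS, ?_, ?_, ?_⟩
  · ext v
    simp only [mem_union, mem_sdiff]
    constructor
    · rintro ((h | h) | h)
      · exact h.1
      · exact hS (hJS h)
      · exact hS h.1
    · intro h
      by_cases h3 : v ∈ S
      · by_cases h4 : v ∈ J
        · left; right; exact h4
        · right; exact ⟨h3, h4⟩
      · left; left; exact ⟨h, h3⟩
  · rw [disjoint_left]
    intro v hv hv2
    rw [mem_sdiff] at hv2
    rw [mem_union, mem_sdiff] at hv
    rcases hv with hv | hv
    · exact hv.2 hv2.1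
    · exact hv2.2 hv
  · intro v hv
    by_cases h3 : v ∈ V \ S
    · simp only [h3, dif_pos]
      exact (mem_sdiff.1 (hf2 ⟨v, h3⟩)).1
    · simp only [h3, dif_neg, not_false_iff]
      have hvJ : v ∈ J := (mem_union.1 hv).resolve_left h3
      obtain ⟨h4, h5⟩ := hgi v hvJ
      have h6 := hg2 ⟨gi v, h4⟩
      rw [h5] at h6
      exact (mem_filter.1 h6).2
  · intro v hv v' hv' huu
    by_cases h3 : v ∈ V \ S
    · by_cases h4 : v' ∈ V \ S
      · simp only [h3, h4, dif_pos] at huu
        have := hf1 huu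
        simpa using this
      · exfalso
        simp only [h3, h4, dif_pos, dif_neg, not_false_iff] at huu
        have hvJ : v' ∈ J := (mem_union.1 hv').resolve_left h4
        obtain ⟨h5, _⟩ := hgi v' hvJ
        rw [← huu] at h5
        exact (mem_sdiff.1 (hf2 ⟨v, h3⟩)).2 h5
    · by_cases h4 : v' ∈ V \ S
      · exfalso
        simp only [h3, h4, dif_pos, dif_neg, not_false_iff] at huu
        have hvJ : v ∈ J := (mem_union.1 hv).resolve_left h3
        obtain ⟨h5, _⟩ := hgi v hvJ
        rw [huu] at h5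
        exact (mem_sdiff.1 (hf2 ⟨v', h4⟩)).2 h5
      · simp only [h3, h4, dif_neg, not_false_iff] at huu
        have hvJ : v ∈ J := (mem_union.1 hv).resolve_left h3
        have hvJ' : v' ∈ J := (mem_union.1 hv').resolve_left h4
        obtain ⟨h5, h6⟩ := hgi v hvJ
        obtain ⟨h7, h8⟩ := hgi v' hvJ'
        rw [← h6, ← h8]
        congr 1
        exact Subtype.ext huu
  · intro v hv u hu
    have h3 : u ∈ Γ := by rw [hΓ, mem_biUnion]; exact ⟨v, hv, hu⟩
    have h4 : g ⟨u, h3⟩ ∈ J := by rw [hJ]; exact mem_image_of_mem _ (mem_univ _)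
    refine ⟨g ⟨u, h3⟩, mem_union_right _ h4, hJS h4, ?_⟩
    have h5 : g ⟨u, h3⟩ ∉ V \ S := by
      intro h6
      exact (mem_sdiff.1 h6).2 (hJS h4)
    simp only [h5, dif_neg, not_false_iff]
    obtain ⟨h6, h7⟩ := hgi _ h4
    have h8 := hg1 h7
    exact congrArg Subtype.val h8

end SIFU
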