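import Pool.Agent.H99.SIF.UnG
import Pool.Agent.H99.SIF.UnK

/-! Unordered form of MP_008206_co: the inequality around a line of maximal degree (helper25). -/

namespace SIFU
open Finset

variable {P Q : Type} [Fintype P] [Fintype Q] [DecidableEq P] [DecidableEq Q]

/-- skipped columns outside `N(p)` -/
def Ac (A : P → Q → Bool) (p : P) (C : Q → Finset Q) (c : Q) : Finset Q :=
  univ \ (Nr A p ∪ C c)

/-- rows not in the copy of `c` and not containing `c` -/
def Ww (A : P → Q → Bool) (R : Q → Finset P) (c : Q) : Finset P :=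
  univ.filter (fun r => A r c = false ∧ r ∉ R c)

/-- the ones outside `N(p)` -/
def Oo (A : P → Q → Bool) (p r : P) : Finset Q := Nr A r \ Nr A p

/-- rows in no copy of the family -/
def I0 (A : P → Q → Bool) (p : P) (R : Q → Finset P) : Finset P :=
  univ.filter (fun r => r ≠ p ∧ G A p R r = ∅)

omit [Fintype P] [DecidableEq P] in
theorem card_comm2 {α β : Type} [DecidableEq α] [DecidableEq β] (S : Finset α) (T : Finset β)
    (r : α → β → Prop) [∀ a b, Decidable (r a b)] :
    ∑ a ∈ S, (T.filter (fun b => r a b)).card = ∑ b ∈ T, (S.filter (fun a => r a b)).card := by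
  simp only [card_filter]
  exact sum_comm

namespace Ctx

variable {A : P → Q → Bool} {k x D w : ℕ} {p : P} {R : Q → Finset P} {C : Q → Finset Q}

theorem cardW (h : Ctx A k x p R C) {c : Q} (hc : c ∈ Nr A p) :
    (Nc A c).card + (Ww A R c).card = x + 1 := by
  have := h.colcount hc
  unfold Ww
  omega

theorem cardAc (h : Ctx A k x p R C) (hp : (Nr A p).card = D) (hDw : D + w = x + 1) {c : Q}
    (hc : c ∈ Nr A p) : (Ac A p C c).card = w := by
  have := h.skipcard hc
  unfold Ac
  omega

theorem pW {c : Q} (hc : c ∈ Nr A p) : p ∉ Ww A R c := by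
  unfold Ww
  rw [mem_filter]
  rintro ⟨_, h1, _⟩
  rw [mem_Nr.1 hc] at h1
  simp at h1

/-- `|O r| ≤ w + 1` for rows in some copy of the family -/
theorem out_le (h : Ctx A k x p R C) (hp : (Nr A p).card = D) (hDw : D + w = x + 1) {r : P}
    (hrp : r ≠ p) (hr : r ∉ I0 A p R) : (Oo A p r).card ≤ w + 1 := by
  unfold I0 at hr
  rw [mem_filter, not_and, not_and] at hr
  have h1 : (G A p R r).Nonempty := nonempty_iff_ne_empty.2 (hr (mem_univ r) hrp)
  obtain ⟨c, hc⟩ := h1
  simp only [G, mem_filter] at hc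
  have h2 := h.outcard hc.1 hc.2 hrp
  have h3 := h.cardAc hp hDw hc.1
  have h4 : (Nr A r ∩ Ac A p C c).card ≤ (Ac A p C c).card := card_le_card inter_subset_right
  unfold Oo
  unfold Ac at h3 h4
  omega

/-- rows of `I0`: `|O r| ≤ |Hs r|` -/
theorem out_le0 (h : Ctx A k x p R C) (hp : (Nr A p).card = D) (hR : ∀ r, (Nr A r).card ≤ D)
    {r : P} (hr : r ∈ I0 A p R) : (Oo A p r).card ≤ (Hs A p R r).card := by
  unfold I0 at hr
  rw [mem_filter] at hr
  have h1 := h.part hr.2.1
  have h2 := degsplit A p r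
  have h3 := hR r
  rw [hr.2.2, card_empty, hp] at h1
  unfold Oo
  omega

theorem Oop : Oo A p p = ∅ := by unfold Oo; simp

/-- the number of ones in terms of the `O r` and `Hs r` -/
theorem Ecount (h : Ctx A k x p R C) (hp : (Nr A p).card = D) :
    (E A).card + ∑ r, (Hs A p R r).card + D * k = D * (k + x + 1) + ∑ r, (Oo A p r).card := by
  have h1 : ∑ r, ((Nr A p ∩ Nr A r).card + (G A p R r).card + (Hs A p R r).card) =
      D * (k + x + 1) := by
    rw [← add_sum_erase univ _ (mem_univ p)]
    have h2 : ∑ r ∈ univ.erase p, ((Nr A p ∩ Nr A r).card + (G A p R r).card +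
        (Hs A p R r).card) = ∑ r ∈ univ.erase p, D := by
      apply sum_congr rfl
      intro r hr
      rw [h.part (ne_of_mem_erase hr), hp]
    rw [h2, sum_const, smul_eq_mul, card_erase_of_mem (mem_univ p), card_univ, h.cP, h.Gp, Hp,
      inter_self, hp, card_empty]
    have hkx : 1 ≤ k + x := by rw [← h.cP]; exact Fintype.card_pos_iff.2 ⟨p⟩
    obtain ⟨n1, hn1⟩ : ∃ n1, k + x = n1 + 1 := ⟨k + x - 1, by omega⟩
    rw [hn1, Nat.add_sub_cancel]
    ring
  rw [sum_add_distrib, sum_add_distrib, h.sumG, hp] at h1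
  have h3 : (E A).card = ∑ r, (Nr A p ∩ Nr A r).card + ∑ r, (Oo A p r).card := by
    rw [card_E_rows, ← sum_add_distrib]
    apply sum_congr rfl
    intro r _
    exact degsplit A p r
  omega

/-- the rows are split into `R c`, `(Nc A c).erase p`, `Ww c` -/
theorem rowsplit (h : Ctx A k x p R C) {c : Q} (hc : c ∈ Nr A p) (f : P → ℕ) :
    ∑ r, f r = ∑ r ∈ R c, f r + ∑ r ∈ (Nc A c).erase p, f r + ∑ r ∈ Ww A R c, f r := by
  have h1 : (univ : Finset P) = (R c ∪ (Nc A c).erase p) ∪ Ww A R c := by
    ext r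
    simp only [mem_univ, mem_union, mem_erase, mem_Nc, Ww, mem_filter, true_and, true_iff]
    by_cases h1 : r ∈ R c
    · left; left; exact h1
    · by_cases h2 : A r c = true
      · left; right
        refine ⟨?_, h2⟩
        rintro rfl
        exact h1 (h.pR c hc)
      · right; exact ⟨by simpa using h2, h1⟩
  have h2 : Disjoint (R c) ((Nc A c).erase p) := by
    rw [disjoint_left]
    intro r hr hr2
    rw [mem_erase, mem_Nc] at hr2
    have := h.zero hc hr hr2.1
    rw [hr2.2] at this
    simp at this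
  have h3 : Disjoint (R c ∪ (Nc A c).erase p) (Ww A R c) := by
    rw [disjoint_left]
    intro r hr hr2
    simp only [Ww, mem_filter, mem_univ, true_and] at hr2
    rw [mem_union, mem_erase, mem_Nc] at hr
    rcases hr with hr | hr
    · exact hr2.2 hr
    · rw [hr.2] at hr2; simp at hr2
  rw [h1, sum_union h3, sum_union h2]

/-- the rows of the copy of `c` -/
theorem ORc (h : Ctx A k x p R C) {c : Q} (hc : c ∈ Nr A p) :
    ∑ r ∈ R c, (Oo A p r).card + 1 = k + ∑ v ∈ Ac A p C c, (R c ∩ Nc A v).card := by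
  have h1 : ∑ r ∈ R c, (Oo A p r).card + 1 = ∑ r ∈ R c, (1 + (Nr A r ∩ Ac A p C c).card) := by
    rw [← add_sum_erase _ _ (h.pR c hc),
      ← add_sum_erase _ (fun r => 1 + (Nr A r ∩ Ac A p C c).card) (h.pR c hc)]
    have h2 : Nr A p ∩ Ac A p C c = ∅ := by
      ext d
      simp only [Ac, mem_inter, mem_sdiff, mem_univ, true_and, mem_union, notMem_empty, iff_false,
        not_and, not_not]
      intro hd; exact Or.inl hd
    have h3 : ∑ r ∈ (R c).erase p, (Oo A p r).card =
        ∑ r ∈ (R c).erase p, (1 + (Nr A r ∩ Ac A p C c).card) := by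
      apply sum_congr rfl
      intro r hr
      rw [mem_erase] at hr
      exact h.outcard hc hr.2 hr.1
    rw [h3, Oop, h2]
    simp
    ring
  rw [h1, sum_add_distrib, sum_const, smul_eq_mul, mul_one, (h.cp c hc).cR]
  congr 1
  have h4 := card_comm2 (R c) (Ac A p C c) (fun r v => A r v = true)
  have h5 : ∀ r, Nr A r ∩ Ac A p C c = (Ac A p C c).filter (fun v => A r v = true) := by
    intro r
    ext v
    rw [mem_inter, mem_filter, mem_Nr, and_comm]
  have h6 : ∀ v, R c ∩ Nc A v = (R c).filter (fun r => A r v = true) := by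
    intro v
    ext r
    rw [mem_inter, mem_filter, mem_Nc]
  simp only [h5, h6]
  exact h4

/-- (b1) -/
theorem b1 (h : Ctx A k x p R C) {c v : Q} (hc : c ∈ Nr A p) (hv : v ∈ Ac A p C c)
    (hrel : Rel (fun c r => A r c) k v c) : (R c ∩ Nc A v).card ≤ 1 + (Ww A R c).card := by
  have h1 := relc_le (A := A) h.cP hrel
  have hvp : v ∉ Nr A p := by
    simp only [Ac, mem_sdiff, mem_univ, true_and, mem_union, not_or] at hv
    exact hv.1
  have h2 : (R c ∩ Nc A v) ∪ Nc A c ⊆ Nc A v ∪ Nc A c :=
    union_subset_union_left inter_subset_right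
  have h3 : Disjoint (R c ∩ Nc A v) (Nc A c) := by
    rw [disjoint_left]
    intro r hr hr2
    rw [mem_inter, mem_Nc] at hr
    have hrp : r ≠ p := by
      rintro rfl
      exact hvp (mem_Nr.2 hr.2)
    have := h.zero hc hr.1 hrp
    rw [mem_Nc.1 hr2] at this
    simp at this
  have h4 := card_le_card h2
  rw [card_union_of_disjoint h3] at h4
  have h5 := h.cardW hc
  omega

/-- (b3) -/
theorem b3 (h : Ctx A k x p R C) {c v u : Q} (hc : c ∈ Nr A p) (hv : v ∈ Ac A p C c)
    (hu : u ∈ Nr A p) (hrel : Rel (fun c r => A r c) k u c)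
    (hvu : v ∉ Ac A p C u) :
    (R c ∩ Nc A v).card ≤ 2 + (Ww A R c).card + (R c ∩ Ww A R u).card := by
  obtain ⟨C2, R2, h2, hu2, hc2⟩ := hrel
  have hvp : v ∉ Nr A p := by
    simp only [Ac, mem_sdiff, mem_univ, true_and, mem_union, not_or] at hv
    exact hv.1
  have hvCu : v ∈ C u := by
    by_contra h3
    exact hvu (by simp [Ac, hvp, h3])
  -- the rows of R2 : exactly one contains c
  have hR2c := h2.row c hc2
  have hR2u := h2.row u hu2
  have e1 : Nr (fun c r => A r c) c = Nc A c := rfl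
  have e2 : Nr (fun c r => A r c) u = Nc A u := rfl
  rw [e1] at hR2c
  rw [e2] at hR2u
  have hsub : R c ∩ Nc A v ⊆ ((univ \ Nc A c) \ R2) ∪ ((R2 ∩ Nc A u) ∪
      ((R u ∩ Nc A v) ∪ (R c ∩ Ww A R u))) := by
    intro i hi
    rw [mem_inter, mem_Nc] at hi
    have hip : i ≠ p := by
      rintro rfl
      exact hvp (mem_Nr.2 hi.2)
    have hic := h.zero hc hi.1 hip
    by_cases h3 : i ∈ R2
    · apply mem_union_right
      by_cases h4 : A i u = true
      · apply mem_union_left
        exact mem_inter.2 ⟨h3, mem_Nc.2 h4⟩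
      · apply mem_union_right
        by_cases h5 : i ∈ R u
        · apply mem_union_left
          exact mem_inter.2 ⟨h5, mem_Nc.2 hi.2⟩
        · apply mem_union_right
          rw [mem_inter]
          refine ⟨hi.1, ?_⟩
          unfold Ww
          rw [mem_filter]
          exact ⟨mem_univ _, by simpa using h4, h5⟩
    · apply mem_union_left
      rw [mem_sdiff, mem_sdiff, mem_Nc]
      refine ⟨⟨mem_univ _, ?_⟩, h3⟩
      rw [hic]; simp
  have h3 := card_le_card hsub
  have h4 := card_union_le ((univ \ Nc A c) \ R2) ((R2 ∩ Nc A u) ∪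
      ((R u ∩ Nc A v) ∪ (R c ∩ Ww A R u)))
  have h5 := card_union_le (R2 ∩ Nc A u) ((R u ∩ Nc A v) ∪ (R c ∩ Ww A R u))
  have h6 := card_union_le (R u ∩ Nc A v) (R c ∩ Ww A R u)
  have h7 := (h.cp u hu).col v hvCu
  -- card of (univ \ Nc c) \ R2
  have h8 : ((univ \ Nc A c) \ R2).card + (R2.card - 1) + (Nc A c).card = k + x := by
    have h9 : (univ : Finset P) = ((univ \ Nc A c) \ R2) ∪ (R2 \ Nc A c) ∪ Nc A c := by
      ext r
      simp only [mem_univ, mem_union, mem_sdiff, true_and, true_iff]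
      tauto
    have h10 : Disjoint ((univ \ Nc A c) \ R2) (R2 \ Nc A c) := by
      rw [disjoint_left]
      intro r hr hr2
      exact (mem_sdiff.1 hr).2 (mem_sdiff.1 hr2).1
    have h11 : Disjoint (((univ \ Nc A c) \ R2) ∪ (R2 \ Nc A c)) (Nc A c) := by
      rw [disjoint_left]
      intro r hr hr2
      simp only [mem_union, mem_sdiff, mem_univ, true_and] at hr
      rcases hr with hr | hr
      · exact hr.1 hr2
      · exact hr.2 hr2
    have h12 := card_union_of_disjoint h11
    rw [card_union_of_disjoint h10, ← h9, card_univ, h.cP] at h12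
    have h13 := card_inter_add_card_sdiff R2 (Nc A c)
    omega
  have h14 := h2.cC
  have h15 := h.cardW hc
  have h16 : 1 ≤ k := by
    rw [← h14]
    have : 0 < (R2 ∩ Nc A c).card := by omega
    rw [card_pos] at this
    obtain ⟨i, hi⟩ := this
    exact card_pos.2 ⟨i, (mem_inter.1 hi).1⟩
  omega

end Ctx

end SIFU
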