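import Pool.Agent.H99.SIF.UnH

/-! Unordered form of MP_008206_co: the exact identity for a set `S` of skipped columns. -/

namespace SIFU
open Finset

variable {P Q : Type} [Fintype P] [Fintype Q] [DecidableEq P] [DecidableEq Q]

namespace Ctx

variable {A : P → Q → Bool} {k x D w : ℕ} {p : P} {R : Q → Finset P} {C : Q → Finset Q}

theorem raw (h : Ctx A k x p R C) (hp : (Nr A p).card = D) {c : Q} (hc : c ∈ Nr A p)
    {S : Finset Q} (hS : S ⊆ Ac A p C c) :
    (E A).card + ∑ r, (Hs A p R r).card + 1 + D * k = D * (k + x + 1) + k +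
      ∑ v ∈ Ac A p C c \ S, (R c ∩ Nc A v).card + ∑ v ∈ S, (Nc A v).card +
      ∑ r ∈ (Nc A c).erase p, (Oo A p r \ S).card + ∑ r ∈ Ww A R c, (Oo A p r \ S).card := by
  have h1 := h.Ecount hp
  have h2 := h.rowsplit hc (fun r => (Oo A p r).card)
  have h3 := h.ORc hc
  have h4 : ∑ v ∈ Ac A p C c, (R c ∩ Nc A v).card = ∑ v ∈ Ac A p C c \ S, (R c ∩ Nc A v).card +
      ∑ v ∈ S, (R c ∩ Nc A v).card := (sum_sdiff hS).symm
  have hSp : ∀ v ∈ S, v ∉ Nr A p := by
    intro v hv
    have := hS hv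
    simp only [Ac, mem_sdiff, mem_univ, true_and, mem_union, not_or] at this
    exact this.1
  -- double counting
  have h5 : ∑ v ∈ S, (Nc A v).card = ∑ r, (Oo A p r ∩ S).card := by
    have h6 := card_comm2 (univ : Finset P) S (fun r v => A r v = true)
    have h7 : ∀ r, Oo A p r ∩ S = S.filter (fun v => A r v = true) := by
      intro r
      ext v
      rw [mem_inter, mem_filter, Oo, mem_sdiff, mem_Nr]
      constructor
      · rintro ⟨⟨a, _⟩, b⟩; exact ⟨b, a⟩
      · rintro ⟨a, b⟩; exact ⟨⟨b, hSp v a⟩, a⟩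
    simp only [h7]
    exact h6.symm
  have h6 := h.rowsplit hc (fun r => (Oo A p r ∩ S).card)
  have h7 : ∑ r ∈ R c, (Oo A p r ∩ S).card = ∑ v ∈ S, (R c ∩ Nc A v).card := by
    have h8 := card_comm2 (R c) S (fun r v => A r v = true)
    have h9 : ∀ r, Oo A p r ∩ S = S.filter (fun v => A r v = true) := by
      intro r
      ext v
      rw [mem_inter, mem_filter, Oo, mem_sdiff, mem_Nr]
      constructor
      · rintro ⟨⟨a, _⟩, b⟩; exact ⟨b, a⟩
      · rintro ⟨a, b⟩; exact ⟨⟨b, hSp v a⟩, a⟩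
    have h10 : ∀ v, R c ∩ Nc A v = (R c).filter (fun r => A r v = true) := by
      intro v
      ext r
      rw [mem_inter, mem_filter, mem_Nc]
    simp only [h9, h10]
    exact h8
  have h8 : ∑ r ∈ (Nc A c).erase p, (Oo A p r).card =
      ∑ r ∈ (Nc A c).erase p, (Oo A p r \ S).card + ∑ r ∈ (Nc A c).erase p, (Oo A p r ∩ S).card := by
    rw [← sum_add_distrib]
    apply sum_congr rfl
    intro r _
    rw [add_comm]
    exact (card_inter_add_card_sdiff _ _).symm
  have h9 : ∑ r ∈ Ww A R c, (Oo A p r).card =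
      ∑ r ∈ Ww A R c, (Oo A p r \ S).card + ∑ r ∈ Ww A R c, (Oo A p r ∩ S).card := by
    rw [← sum_add_distrib]
    apply sum_congr rfl
    intro r _
    rw [add_comm]
    exact (card_inter_add_card_sdiff _ _).symm
  beta_reduce at h2 h6
  omega

end Ctx

end SIFU
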