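import Pool.Agent.H99.SIF.UnI

/-! Unordered form of MP_008206_co: the inequalities of helper25, helper47, helper52 (linear range). -/

namespace SIFU
open Finset

variable {P Q : Type} [Fintype P] [Fintype Q] [DecidableEq P] [DecidableEq Q]

namespace Ctx

variable {A : P → Q → Bool} {k x D w : ℕ} {p : P} {R : Q → Finset P} {C : Q → Finset Q}

/-- a row of some copy whose skipped columns contain `V'` -/
theorem rowR (h : Ctx A k x p R C) (hp : (Nr A p).card = D) (hDw : D + w = x + 1) {u : Q}
    (hu : u ∈ Nr A p) {V' : Finset Q} {r : P} (hru : r ∈ R u) (hV' : ∀ v ∈ V', v ∈ Ac A p C u) :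
    (Oo A p r ∪ V').card ≤ w + 1 := by
  have h5 : Oo A p r ∪ V' ⊆ (C u ∩ Nr A r) ∪ Ac A p C u := by
    intro d hd
    rw [mem_union, Oo, mem_sdiff] at hd
    rcases hd with hd | hd
    · by_cases h6 : d ∈ C u
      · exact mem_union_left _ (mem_inter.2 ⟨h6, hd.1⟩)
      · apply mem_union_right
        simp [Ac, hd.2, h6]
    · exact mem_union_right _ (hV' d hd)
  have h6 := card_le_card h5
  have h7 := card_union_le (C u ∩ Nr A r) (Ac A p C u)
  rw [(h.cp u hu).row r hru, h.cardAc hp hDw hu] at h7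
  omega

/-- inequality (4) -/
theorem row4 (h : Ctx A k x p R C) (hp : (Nr A p).card = D) (hDw : D + w = x + 1) {c : Q}
    (hc : c ∈ Nr A p) {V V' K : Finset Q} {uu : Q → Q}
    (hV : ∀ v ∈ V, v ∈ Ac A p C c ∧ ¬ Rel (fun c r => A r c) k v c)
    (hKV : K ∪ V' = V) (hdis : Disjoint K V')
    (hSn : ∀ v ∈ V', ∀ u ∈ Nr A p, u ≠ c → Rel (fun c r => A r c) k u c → v ∉ Ac A p C u →
      ∃ v' ∈ K, uu v' = u)
    {r : P} (hrc : r ∈ (Nc A c).erase p) (hr1 : w + 1 < (Oo A p r ∪ V').card) (Hc : Finset Q)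
    (hHc : ∀ u ∈ Hs A p R r, u ≠ c → Rel (fun c r => A r c) k u c → u ∈ Hc) :
    (Oo A p r ∪ V').card + 1 ≤ w + 1 + Hc.card +
      (K.filter (fun v => r ∈ R (uu v) ∧ A r v = true)).card := by
  rw [mem_erase, mem_Nc] at hrc
  obtain ⟨hrp, hrc⟩ := hrc
  obtain ⟨R2, C2, h2, hr2, hc2⟩ := h.hU r c hrc
  have hint := Cp_inter h2 hr2 hc2 hrc
  set U := (Nr A p ∩ C2).erase c with hUdef
  have hcU : c ∈ Nr A p ∩ C2 := mem_inter.2 ⟨hc, hc2⟩
  have hUc := card_erase_add_one hcU
  have hsub : (Nr A p \ C2) ∪ (Oo A p r ∪ V) ⊆ univ \ C2 := by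
    intro d hd
    rw [mem_sdiff]
    refine ⟨mem_univ _, fun hdC => ?_⟩
    rw [mem_union, mem_union, mem_sdiff, Oo, mem_sdiff] at hd
    rcases hd with hd | hd | hd
    · exact hd.2 hdC
    · have h5 : d ∈ C2 ∩ Nr A r := mem_inter.2 ⟨hdC, hd.1⟩
      rw [hint, mem_singleton] at h5
      rw [h5] at hd
      exact hd.2 hc
    · exact (hV d hd).2 ⟨C2, R2, Cp_swap h2, hdC, hc2⟩
  have hVp : ∀ v ∈ V, v ∉ Nr A p := by
    intro v hv
    have := (hV v hv).1
    simp only [Ac, mem_sdiff, mem_univ, true_and, mem_union, not_or] at this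
    exact this.1
  have hdisj : Disjoint (Nr A p \ C2) (Oo A p r ∪ V) := by
    rw [disjoint_left]
    intro d hd hd2
    rw [mem_sdiff] at hd
    rw [mem_union, Oo, mem_sdiff] at hd2
    rcases hd2 with hd2 | hd2
    · exact hd2.2 hd.1
    · exact hVp d hd2 hd.1
  have h3 := card_le_card hsub
  rw [card_union_of_disjoint hdisj, card_sdiff_of_subset (subset_univ _), h2.cC, card_univ,
    h.cQ] at h3
  have h4 := card_inter_add_card_sdiff (Nr A p) C2
  rw [hp] at h4
  have hkx : k + x - k = x := by omega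
  rw [hkx] at h3
  have hUc' : U.card + 1 = (Nr A p ∩ C2).card := hUc
  have hOV : (Oo A p r ∪ V).card ≤ w + U.card := by omega
  have hA : ∀ u ∈ U, r ∈ R u → ∃ v ∈ V', v ∉ Ac A p C u := by
    intro u hu hru
    by_contra hno
    push Not at hno
    rw [hUdef, mem_erase, mem_inter] at hu
    have := h.rowR hp hDw hu.2.1 hru hno
    omega
  have hU1 : U.filter (fun u => r ∈ R u) ⊆ (K.filter (fun v => r ∈ R (uu v))).image uu := by
    intro u hu
    rw [mem_filter] at hu
    obtain ⟨v, hvS, hvu⟩ := hA u hu.1 hu.2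
    rw [hUdef, mem_erase, mem_inter] at hu
    obtain ⟨v', hv', huv⟩ := hSn v hvS u hu.1.2.1 hu.1.1
      ⟨C2, R2, Cp_swap h2, hu.1.2.2, hc2⟩ hvu
    rw [mem_image]
    refine ⟨v', ?_, huv⟩
    rw [mem_filter, huv]
    exact ⟨hv', hu.2⟩
  have hU2 : U.filter (fun u => ¬ r ∈ R u) ⊆ Hc := by
    intro u hu
    rw [mem_filter, hUdef, mem_erase, mem_inter] at hu
    refine hHc u ?_ hu.1.1 ⟨C2, R2, Cp_swap h2, hu.1.2.2, hc2⟩
    simp only [Hs, mem_filter]
    refine ⟨hu.1.2.1, ?_, hu.2⟩
    by_contra h5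
    have h6 : u ∈ C2 ∩ Nr A r := mem_inter.2 ⟨hu.1.2.2, mem_Nr.2 (by simpa using h5)⟩
    rw [hint, mem_singleton] at h6
    exact hu.1.1 h6
  have e1 := card_filter_add_card_filter_not (s := U) (fun u => r ∈ R u)
  have e2 := card_le_card hU1
  have e3 := card_image_le (s := K.filter (fun v => r ∈ R (uu v))) (f := uu)
  have e4 := card_le_card hU2
  have e5 := card_filter_add_card_filter_not (s := K.filter (fun v => r ∈ R (uu v)))
    (fun v => A r v = true)
  rw [filter_filter, filter_filter] at e5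
  set Bf := K.filter (fun v => r ∈ R (uu v) ∧ ¬ A r v = true) with hBf
  have e6 : (Oo A p r ∪ V') ∪ Bf ⊆ Oo A p r ∪ V := by
    intro d hd
    rw [mem_union, mem_union] at hd
    rw [mem_union]
    rcases hd with (hd | hd) | hd
    · exact Or.inl hd
    · right; rw [← hKV]; exact mem_union_right _ hd
    · right; rw [← hKV]; exact mem_union_left _ (mem_filter.1 hd).1
  have e7 : Disjoint (Oo A p r ∪ V') Bf := by
    rw [disjoint_left]
    intro d hd hd2
    rw [hBf, mem_filter] at hd2
    rw [mem_union, Oo, mem_sdiff, mem_Nr] at hd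
    rcases hd with hd | hd
    · exact hd2.2.2 hd.1
    · exact (disjoint_left.1 hdis) hd2.1 hd
  have e8 := card_le_card e6
  rw [card_union_of_disjoint e7] at e8
  omega

/-- `|O_r| ≤ m_r + h_r` -/
theorem outdeg (h : Ctx A k x p R C) (hp : (Nr A p).card = D) (hR : ∀ r, (Nr A r).card ≤ D)
    (r : P) : (Oo A p r).card ≤ (Hs A p R r).card + ((Nr A p).filter (fun u => r ∈ R u)).card := by
  have h1 : (Oo A p r).card ≤ (Nr A p \ Nr A r).card := by
    have e1 := card_inter_add_card_sdiff (Nr A p) (Nr A r)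
    have e2 := card_inter_add_card_sdiff (Nr A r) (Nr A p)
    rw [inter_comm] at e2
    have e3 := hR r
    unfold Oo
    omega
  refine h1.trans ?_
  rw [← card_union_of_disjoint]
  · apply card_le_card
    intro u hu
    rw [mem_sdiff, mem_Nr (r := r)] at hu
    simp only [Hs, mem_union, mem_filter]
    by_cases h2 : r ∈ R u
    · exact Or.inr ⟨hu.1, h2⟩
    · exact Or.inl ⟨hu.1, by simpa using hu.2, h2⟩
  · rw [disjoint_left]
    intro u h2 h3
    simp only [Hs, mem_filter] at h2 h3
    exact h2.2.2 h3.2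

end Ctx

theorem frame52 {A : P → Q → Bool} {k x D w : ℕ} (cP : Fintype.card P = k + x)
    (cQ : Fintype.card Q = k + x) (hU : U A k) (hR : ∀ r, (Nr A r).card ≤ D)
    (hC : ∀ c, (Nc A c).card ≤ D) (hDw : D + w = x + 1) (hD : 1 ≤ D) (p : P)
    (hp : (Nr A p).card = D) :
    ∃ κ d l f ι q Y : ℕ, κ + d ≤ w ∧ (d = 0 → f = 0) ∧ f + 1 ≤ D ∧ ι * l + f + Y ≤ q + κ ∧
      D * l ≤ q + l + κ * l ∧ Y ≤ d * f ∧ (w + 1) * f + Y ≤ q + d * f + (k - 1) * (κ + ι) ∧
      (E A).card + w + d * w + q ≤ (x + 1) ^ 2 + (k + x - 1) + κ + w * l + Y ∧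
      (E A).card + w + d * (w + 1) + q ≤ (x + 1) ^ 2 + (k + x - 1) + κ + d * (k - 1) + w * l := by
  classical
  obtain ⟨R, C, h⟩ := Ctx_exists cP cQ hU p
  have hne : (Nr A p).Nonempty := by rw [← card_pos, hp]; omega
  obtain ⟨c, hc, hmin⟩ := exists_min_image (Nr A p) (fun u => (Ww A R u \ I0 A p R).card) hne
  set l := (Ww A R c \ I0 A p R).card with hl
  set V := (Ac A p C c).filter (fun v => ¬ Rel (fun c r => A r c) k v c) with hVdef
  haveI : Inhabited Q := ⟨c⟩
  obtain ⟨V', K, S, uu, hKV, hdis, hVS, hSV, huu, hinj, hSn⟩ := koenig V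
    (fun v => ((Nr A p).erase c).filter
      (fun u => Rel (fun c r => A r c) k u c ∧ v ∉ Ac A p C u))
  have hV : ∀ v ∈ V, v ∈ Ac A p C c ∧ ¬ Rel (fun c r => A r c) k v c := by
    intro v hv
    rw [hVdef, mem_filter] at hv
    exact hv
  have hKsub : K ⊆ V := by rw [← hKV]; exact subset_union_left
  have hV'sub : V' ⊆ V := by rw [← hKV]; exact subset_union_right
  have hVAc : V ⊆ Ac A p C c := filter_subset _ _
  have huu' : ∀ v ∈ K, uu v ≠ c ∧ uu v ∈ Nr A p ∧ Rel (fun c r => A r c) k (uu v) c ∧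
      v ∉ Ac A p C (uu v) := by
    intro v hv
    have := huu v hv
    rw [mem_filter, mem_erase] at this
    exact ⟨this.1.1, this.1.2, this.2.1, this.2.2⟩
  have hvp : ∀ v ∈ Ac A p C c, v ∉ Nr A p := by
    intro v hv
    simp only [Ac, mem_sdiff, mem_univ, true_and, mem_union, not_or] at hv
    exact hv.1
  set t : P → ℕ := fun r => (K.filter (fun v => r ∈ R (uu v) ∧ A r v = true)).card with ht
  -- sum of t
  have hsumt : ∀ B : Finset P, ∑ r ∈ B, t r ≤ K.card := by
    intro B
    rw [ht]
    beta_reduce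
    rw [card_comm2 B K (fun r v => r ∈ R (uu v) ∧ A r v = true), card_eq_sum_ones]
    apply sum_le_sum
    intro v hv
    have h1 := huu' v hv
    have h2 : v ∈ C (uu v) := by
      by_contra h3
      exact h1.2.2.2 (by simp [Ac, hvp v (hVAc (hKsub hv)), h3])
    rw [← (h.cp (uu v) h1.2.1).col v h2]
    apply card_le_card
    intro r hr
    rw [mem_filter] at hr
    exact mem_inter.2 ⟨hr.2.1, mem_Nc.2 hr.2.2⟩
  set N1 := ((Nc A c).erase p).filter (fun r => r ∉ I0 A p R) with hN1
  set y : P → ℕ := fun r => (Oo A p r ∪ V').card - (w + 1) with hy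
  set Y := ∑ r ∈ N1, y r with hY
  set df := (Ww A R c).card with hdf
  have hcardW := h.cardW hc
  -- basic facts
  have hI0 : ∀ r, r ∈ I0 A p R ↔ r ≠ p ∧ G A p R r = ∅ := by intro r; simp [I0]
  have hRcI0 : ∀ r ∈ R c, r ∉ I0 A p R := by
    intro r hr h1
    rw [hI0] at h1
    have : c ∈ G A p R r := by simp only [G, mem_filter]; exact ⟨hc, hr⟩
    rw [h1.2] at this
    simp at this
  -- H0
  set H0 := ∑ r, (if r ∈ I0 A p R then 0 else (Hs A p R r).card) with hH0
  set HI := ∑ r, (if r ∈ I0 A p R then (Hs A p R r).card else 0) with hHI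
  have hHsum : ∑ r, (Hs A p R r).card = H0 + HI := by
    rw [hH0, hHI, ← sum_add_distrib]
    apply sum_congr rfl
    intro r _
    split_ifs <;> simp
  have hH0u : H0 = ∑ u ∈ Nr A p, (Ww A R u \ I0 A p R).card := by
    have h1 : H0 = ∑ r ∈ univ.filter (fun r => r ∉ I0 A p R), (Hs A p R r).card := by
      rw [hH0, sum_filter]
      apply sum_congr rfl
      intro r _
      by_cases h2 : r ∈ I0 A p R <;> simp [h2]
    rw [h1]
    unfold Hs
    rw [card_comm2 (univ.filter (fun r => r ∉ I0 A p R)) (Nr A p)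
      (fun r c => A r c = false ∧ r ∉ R c)]
    apply sum_congr rfl
    intro u _
    congr 1
    ext r
    simp only [mem_filter, mem_univ, true_and, mem_sdiff, Ww]
    tauto
  -- L
  set SL := ∑ v ∈ K, (R c ∩ Ww A R (uu v)).card with hSL
  have hLimg : SL = ∑ u ∈ K.image uu, (R c ∩ Ww A R u).card := by
    rw [sum_image (fun v hv v' hv' e => hinj v hv v' hv' e)]
  have himg : K.image uu ⊆ Nr A p := by
    intro u hu
    rw [mem_image] at hu
    obtain ⟨v, hv, rfl⟩ := hu
    exact (huu' v hv).2.1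
  have hRW : ∀ u ∈ Nr A p, (R c ∩ Ww A R u).card ≤ (Ww A R u \ I0 A p R).card := by
    intro u _
    apply card_le_card
    intro r hr
    rw [mem_inter] at hr
    exact mem_sdiff.2 ⟨hr.2, hRcI0 r hr.1⟩
  have hL2 : SL + (D - K.card) * l ≤ H0 := by
    rw [hH0u, hLimg, ← sum_sdiff himg, add_comm]
    apply add_le_add
    · have h1 : (Nr A p \ K.image uu).card * l ≤
          ∑ u ∈ Nr A p \ K.image uu, (Ww A R u \ I0 A p R).card := by
        rw [← smul_eq_mul, ← sum_const]
        apply sum_le_sum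
        intro u hu
        exact hmin u (mem_sdiff.1 hu).1
      refine le_trans (Nat.mul_le_mul_right l ?_) h1
      rw [card_sdiff_of_subset himg, hp]
      have := card_image_le (s := K) (f := uu)
      omega
    · apply sum_le_sum
      intro u hu
      exact hRW u (himg hu)
  have hL3 : SL + ∑ r ∈ N1, (Hs A p R r).card + l ≤ H0 := by
    have h1 := h.rowsplit hc (fun r => if r ∈ I0 A p R then 0 else (Hs A p R r).card)
    rw [← hH0] at h1
    beta_reduce at h1
    have h2 : SL ≤ ∑ r ∈ R c, (if r ∈ I0 A p R then 0 else (Hs A p R r).card) := by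
      have h3 : ∑ r ∈ R c, (if r ∈ I0 A p R then 0 else (Hs A p R r).card) =
          ∑ r ∈ R c, (Hs A p R r).card := by
        apply sum_congr rfl
        intro r hr
        rw [if_neg (hRcI0 r hr)]
      rw [h3]
      unfold Hs
      rw [card_comm2 (R c) (Nr A p) (fun r u => A r u = false ∧ r ∉ R u), hLimg]
      refine le_trans (le_of_eq ?_) (sum_le_sum_of_subset himg)
      apply sum_congr rfl
      intro u _
      congr 1
      ext r
      simp only [mem_inter, mem_filter, mem_univ, true_and, Ww]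
    have h3 : ∑ r ∈ N1, (Hs A p R r).card = ∑ r ∈ (Nc A c).erase p,
        (if r ∈ I0 A p R then 0 else (Hs A p R r).card) := by
      rw [hN1, sum_filter]
      apply sum_congr rfl
      intro r _
      by_cases h2 : r ∈ I0 A p R <;> simp [h2]
    have h4 : l ≤ ∑ r ∈ Ww A R c, (if r ∈ I0 A p R then 0 else (Hs A p R r).card) := by
      have h5 : ∑ r ∈ Ww A R c, (if r ∈ I0 A p R then 0 else (Hs A p R r).card) =
          ∑ r ∈ Ww A R c \ I0 A p R, (Hs A p R r).card := by
        have h6 : Ww A R c \ I0 A p R = (Ww A R c).filter (fun r => r ∉ I0 A p R) := by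
          ext r; simp
        rw [h6, sum_filter]
        apply sum_congr rfl
        intro r _
        by_cases h2 : r ∈ I0 A p R <;> simp [h2]
      rw [h5, hl, card_eq_sum_ones]
      apply sum_le_sum
      intro r hr
      rw [mem_sdiff, Ww, mem_filter] at hr
      have : c ∈ Hs A p R r := by
        simp only [Hs, mem_filter]
        exact ⟨hc, hr.1.2⟩
      exact card_pos.2 ⟨c, this⟩
    omega
  -- the rows of N(c)
  have hSn' : ∀ v ∈ V', ∀ u ∈ Nr A p, u ≠ c → Rel (fun c r => A r c) k u c →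
      v ∉ Ac A p C u → ∃ v' ∈ K, uu v' = u := by
    intro v hv u hu huc hrel hvu
    obtain ⟨v', hv', _, h2⟩ := hSn v (hVS hv) u (by
        rw [mem_filter, mem_erase]; exact ⟨⟨huc, hu⟩, hrel, hvu⟩)
    exact ⟨v', hv', h2⟩
  have hrow4 : ∀ r ∈ N1, (Oo A p r ∪ V').card ≤ w + 1 + y r := by
    intro r _
    simp only [hy]
    omega
  set hc' : P → ℕ := fun r =>
    ((Hs A p R r).filter (fun u => u ≠ c ∧ Rel (fun c r => A r c) k u c)).card with hhc'
  have hrow4' : ∀ r ∈ N1, 1 ≤ y r → y r + 1 ≤ hc' r + t r := by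
    intro r hr hy1
    rw [hN1, mem_filter] at hr
    have h1 := h.row4 hp hDw hc hV hKV hdis hSn' hr.1 (by simp only [hy] at hy1; omega)
      ((Hs A p R r).filter (fun u => u ≠ c ∧ Rel (fun c r => A r c) k u c))
      (fun u h1 h2 h3 => mem_filter.2 ⟨h1, h2, h3⟩)
    simp only [hhc', ht]
    simp only [hy] at hy1 ⊢
    omega
  have hsd : ∀ r, (Oo A p r \ V').card + V'.card = (Oo A p r ∪ V').card := by
    intro r
    have h1 := card_union_add_card_inter (Oo A p r) V'
    have h2 := card_inter_add_card_sdiff (Oo A p r) V'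
    omega
  have hsumN : ∑ r ∈ (Nc A c).erase p, (Oo A p r \ V').card + N1.card * V'.card ≤
      N1.card * (w + 1) + Y + ∑ r ∈ (Nc A c).erase p,
        (if r ∈ I0 A p R then (Hs A p R r).card else 0) := by
    have h1 : ∑ r ∈ (Nc A c).erase p, (Oo A p r \ V').card =
        ∑ r ∈ N1, (Oo A p r \ V').card + ∑ r ∈ ((Nc A c).erase p).filter
          (fun r => ¬ r ∉ I0 A p R), (Oo A p r \ V').card := by
      rw [hN1, sum_filter_add_sum_filter_not]
    have h2 : ∑ r ∈ N1, (Oo A p r \ V').card + N1.card * V'.card ≤ N1.card * (w + 1) + Y := by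
      rw [← smul_eq_mul, ← smul_eq_mul, ← sum_const, ← sum_const, hY, ← sum_add_distrib,
        ← sum_add_distrib]
      apply sum_le_sum
      intro r hr
      rw [hsd]
      exact hrow4 r hr
    have h3 : ∑ r ∈ ((Nc A c).erase p).filter (fun r => ¬ r ∉ I0 A p R), (Oo A p r \ V').card ≤
        ∑ r ∈ (Nc A c).erase p, (if r ∈ I0 A p R then (Hs A p R r).card else 0) := by
      rw [sum_filter]
      apply sum_le_sum
      intro r _
      by_cases h2 : r ∈ I0 A p R
      · simp only [h2, not_true, not_false_iff, if_true]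
        exact (card_le_card sdiff_subset).trans (h.out_le0 hp hR h2)
      · simp [h2]
    omega
  have hsumW : ∑ r ∈ Ww A R c, (Oo A p r \ V').card ≤ l * (w + 1) + ∑ r ∈ Ww A R c,
      (if r ∈ I0 A p R then (Hs A p R r).card else 0) := by
    have h1 : ∑ r ∈ Ww A R c, (if r ∈ I0 A p R then 0 else (w + 1)) = l * (w + 1) := by
      have h6 : Ww A R c \ I0 A p R = (Ww A R c).filter (fun r => r ∉ I0 A p R) := by
        ext r; simp
      rw [hl, h6, ← smul_eq_mul, ← sum_const, sum_filter]
      apply sum_congr rfl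
      intro r _
      by_cases h2 : r ∈ I0 A p R <;> simp [h2]
    rw [← h1, ← sum_add_distrib]
    apply sum_le_sum
    intro r hr
    have h3 : (Oo A p r \ V').card ≤ (Oo A p r).card := card_le_card sdiff_subset
    by_cases h2 : r ∈ I0 A p R
    · rw [if_pos h2, if_pos h2, zero_add]
      exact h3.trans (h.out_le0 hp hR h2)
    · rw [if_neg h2, if_neg h2, add_zero]
      have hrp : r ≠ p := by
        rintro rfl
        exact Ctx.pW hc hr
      exact h3.trans (h.out_le hp hDw hrp h2)
  have hHIsplit : HI = ∑ r ∈ (Nc A c).erase p, (if r ∈ I0 A p R then (Hs A p R r).card else 0) +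
      ∑ r ∈ Ww A R c, (if r ∈ I0 A p R then (Hs A p R r).card else 0) := by
    have h1 := h.rowsplit hc (fun r => if r ∈ I0 A p R then (Hs A p R r).card else 0)
    have h2 : ∑ r ∈ R c, (if r ∈ I0 A p R then (Hs A p R r).card else 0) = 0 := by
      apply sum_eq_zero
      intro r hr
      rw [if_neg (hRcI0 r hr)]
    beta_reduce at h1
    rw [hHI, h1, h2, zero_add]
  -- the columns of A_c
  have hcols : ∑ v ∈ Ac A p C c \ V', (R c ∩ Nc A v).card ≤
      K.card * (2 + df) + SL + (Ac A p C c \ V).card * (1 + df) := by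
    have h1 : Ac A p C c \ V' = K ∪ (Ac A p C c \ V) := by
      ext v
      simp only [mem_sdiff, mem_union]
      constructor
      · rintro ⟨h1, h2⟩
        by_cases h3 : v ∈ V
        · left
          rw [← hKV, mem_union] at h3
          exact h3.resolve_right h2
        · right; exact ⟨h1, h3⟩
      · rintro (h1 | ⟨h1, h2⟩)
        · exact ⟨hVAc (hKsub h1), fun h2 => (disjoint_left.1 hdis) h1 h2⟩
        · exact ⟨h1, fun h3 => h2 (hV'sub h3)⟩
    have h2 : Disjoint K (Ac A p C c \ V) := by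
      rw [disjoint_left]
      intro v h3 h4
      exact (mem_sdiff.1 h4).2 (hKsub h3)
    rw [h1, sum_union h2]
    apply add_le_add
    · have h3 : ∑ v ∈ K, (R c ∩ Nc A v).card ≤
          ∑ v ∈ K, ((2 + df) + (R c ∩ Ww A R (uu v)).card) := by
        apply sum_le_sum
        intro v hv
        have h4 := huu' v hv
        exact h.b3 hc (hVAc (hKsub hv)) h4.2.1 h4.2.2.1 h4.2.2.2
      rw [sum_add_distrib, sum_const, smul_eq_mul] at h3
      exact h3
    · rw [← smul_eq_mul, ← sum_const]
      apply sum_le_sum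
      intro v hv
      rw [mem_sdiff] at hv
      apply h.b1 hc hv.1
      by_contra h4
      apply hv.2
      rw [hVdef, mem_filter]
      exact ⟨hv.1, h4⟩
  have hdeg : ∑ v ∈ V', (Nc A v).card ≤ V'.card * D := by
    rw [← smul_eq_mul, ← sum_const]
    exact sum_le_sum (fun v _ => hC v)
  have hcardV : (Ac A p C c \ V).card + K.card + V'.card = w := by
    have h1 := card_sdiff_of_subset hVAc
    have h2 := card_le_card hVAc
    have h3 := card_union_of_disjoint hdis
    rw [hKV] at h3
    rw [h.cardAc hp hDw hc] at h1 h2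
    omega
  have hraw := h.raw hp hc (hV'sub.trans hVAc)
  have hN1card : N1.card + 1 ≤ (Nc A c).card := by
    have h1 : N1.card ≤ ((Nc A c).erase p).card := card_le_card (filter_subset _ _)
    have h2 := card_erase_add_one (mem_Nc.2 (mem_Nr.1 hc) : p ∈ Nc A c)
    omega
  have hCc := hC c
  set Fs := N1.filter (fun r => 1 ≤ y r) with hFs
  have hFsub : Fs ⊆ N1 := filter_subset _ _
  have hYF : Y = ∑ r ∈ Fs, y r :=
    (sum_filter_of_ne (fun r _ h1 => Nat.one_le_iff_ne_zero.2 h1)).symm
  have hyd : ∀ r ∈ N1, y r ≤ V'.card := by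
    intro r hr
    rw [hN1, mem_filter, mem_erase] at hr
    have h1 := h.out_le hp hDw hr.1.1 hr.2
    have h2 := card_union_le (Oo A p r) V'
    simp only [hy]
    omega
  have hYd : Y ≤ V'.card * Fs.card := by
    rw [hYF, mul_comm, ← smul_eq_mul, ← sum_const]
    exact sum_le_sum (fun r hr => hyd r (hFsub hr))
  have hd0 : V'.card = 0 → Fs.card = 0 := by
    intro h1
    rw [card_eq_zero, hFs, filter_eq_empty_iff]
    intro r hr h2
    have := hyd r hr
    omega
  have hFD : Fs.card + 1 ≤ D := by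
    have h1 := card_le_card hFsub
    omega
  set inc := ((Nr A p).erase c).filter (fun u => ¬ Rel (fun c r => A r c) k u c) with hinc
  set Cm := ((Nr A p).erase c).filter (fun u => Rel (fun c r => A r c) k u c) with hCm
  have himgC : K.image uu ⊆ Cm := by
    intro u hu
    rw [mem_image] at hu
    obtain ⟨v, hv, rfl⟩ := hu
    have h1 := huu' v hv
    rw [hCm, mem_filter, mem_erase]
    exact ⟨⟨h1.1, h1.2.1⟩, h1.2.2.1⟩
  -- (a)
  have hL4 : SL + ∑ r ∈ N1, hc' r + l + inc.card * l ≤ H0 := by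
    have g1 : SL = ∑ u ∈ Cm, (if u ∈ K.image uu then (R c ∩ Ww A R u).card else 0) := by
      rw [hLimg, ← sum_filter]
      apply sum_congr _ (fun _ _ => rfl)
      ext u
      rw [mem_filter]
      exact ⟨fun hu => ⟨himgC hu, hu⟩, fun hu => hu.2⟩
    have g2 : ∑ r ∈ N1, hc' r = ∑ u ∈ Cm, (N1.filter (fun r => A r u = false ∧ r ∉ R u)).card := by
      rw [← card_comm2 N1 Cm (fun r u => A r u = false ∧ r ∉ R u)]
      apply sum_congr rfl
      intro r _
      simp only [hhc']
      congr 1
      ext u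
      simp only [Hs, hCm, mem_filter, mem_erase]
      tauto
    have g3 : ∀ u ∈ Cm, (if u ∈ K.image uu then (R c ∩ Ww A R u).card else 0) +
        (N1.filter (fun r => A r u = false ∧ r ∉ R u)).card ≤ (Ww A R u \ I0 A p R).card := by
      intro u _
      have g4 : (if u ∈ K.image uu then (R c ∩ Ww A R u).card else 0) ≤
          (R c ∩ Ww A R u).card := by split_ifs <;> simp
      refine le_trans (Nat.add_le_add_right g4 _) ?_
      rw [← card_union_of_disjoint]
      · apply card_le_card
        intro r hr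
        rw [mem_union, mem_inter, mem_filter, hN1, mem_filter] at hr
        rw [mem_sdiff]
        rcases hr with hr | hr
        · exact ⟨hr.2, hRcI0 r hr.1⟩
        · refine ⟨?_, hr.1.2⟩
          simp only [Ww, mem_filter, mem_univ, true_and]
          exact hr.2
      · rw [disjoint_left]
        intro r hr hr2
        rw [mem_filter, hN1, mem_filter, mem_erase, mem_Nc] at hr2
        have := h.zero hc (mem_inter.1 hr).1 hr2.1.1.1
        rw [hr2.1.1.2] at this
        simp at this
    have g5 : ∑ u ∈ (Nr A p).erase c, (Ww A R u \ I0 A p R).card =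
        ∑ u ∈ Cm, (Ww A R u \ I0 A p R).card + ∑ u ∈ inc, (Ww A R u \ I0 A p R).card := by
      rw [hCm, hinc, sum_filter_add_sum_filter_not]
    have g6 : inc.card * l ≤ ∑ u ∈ inc, (Ww A R u \ I0 A p R).card := by
      rw [← smul_eq_mul, ← sum_const]
      apply sum_le_sum
      intro u hu
      rw [hinc, mem_filter, mem_erase] at hu
      exact hmin u hu.1.2
    have g7 := sum_le_sum g3
    rw [sum_add_distrib, ← g1, ← g2] at g7
    rw [hH0u, ← add_sum_erase _ _ hc, g5, ← hl]
    omega
  have hA' : Y + Fs.card ≤ ∑ r ∈ N1, hc' r + K.card := by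
    have g1 : ∑ r ∈ Fs, (y r + 1) ≤ ∑ r ∈ Fs, (hc' r + t r) := by
      apply sum_le_sum
      intro r hr
      rw [hFs, mem_filter] at hr
      exact hrow4' r hr.1 hr.2
    rw [sum_add_distrib, sum_add_distrib, ← hYF, sum_const, smul_eq_mul, mul_one] at g1
    have g2 := hsumt Fs
    have g3 : ∑ r ∈ Fs, hc' r ≤ ∑ r ∈ N1, hc' r := sum_le_sum_of_subset hFsub
    omega
  -- (c)
  have hmr : ∑ r ∈ Fs, ((Nr A p).filter (fun u => r ∈ R u)).card ≤
      (k - 1) * (K.card + inc.card) := by
    rw [card_comm2 Fs (Nr A p) (fun r u => r ∈ R u)]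
    have g1 : ∀ u ∈ Nr A p, (Fs.filter (fun r => r ∈ R u)).card ≤
        if u ∈ K.image uu ∪ inc then k - 1 else 0 := by
      intro u hu
      split_ifs with g2
      · have g3 : Fs.filter (fun r => r ∈ R u) ⊆ (R u).erase p := by
          intro r hr
          rw [mem_filter, hFs, mem_filter, hN1, mem_filter, mem_erase] at hr
          exact mem_erase.2 ⟨hr.1.1.1.1, hr.2⟩
        have g4 := card_le_card g3
        rw [card_erase_of_mem (h.pR u hu), (h.cp u hu).cR] at g4
        exact g4
      · rw [Nat.le_zero, card_eq_zero, filter_eq_empty_iff]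
        intro r hr hru
        apply g2
        rw [hFs, mem_filter, hN1, mem_filter, mem_erase, mem_Nc] at hr
        have huc : u ≠ c := by
          rintro rfl
          have := h.zero hc hru hr.1.1.1
          rw [hr.1.1.2] at this
          simp at this
        rw [mem_union]
        by_cases g5 : Rel (fun c r => A r c) k u c
        · left
          by_contra g6
          have g7 : ∀ v ∈ V', v ∈ Ac A p C u := by
            intro v hv
            by_contra g8
            obtain ⟨v', hv', g9⟩ := hSn' v hv u hu huc g5 g8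
            exact g6 (mem_image.2 ⟨v', hv', g9⟩)
          have g8 := h.rowR hp hDw hu hru g7
          have g9 := hr.2
          simp only [hy] at g9
          omega
        · right
          rw [hinc, mem_filter, mem_erase]
          exact ⟨⟨huc, hu⟩, g5⟩
    refine (sum_le_sum g1).trans ?_
    rw [← sum_filter, sum_const, smul_eq_mul, mul_comm]
    apply Nat.mul_le_mul_left
    refine le_trans (card_le_card (fun u hu => (mem_filter.1 hu).2)) ?_
    refine (card_union_le _ _).trans ?_
    have := card_image_le (s := K) (f := uu)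
    omega
  have hCc' : (w + 1) * Fs.card + Y ≤ ∑ r ∈ N1, (Hs A p R r).card + V'.card * Fs.card +
      (k - 1) * (K.card + inc.card) := by
    obtain ⟨W1, hW1⟩ : ∃ W1, W1 = w + 1 := ⟨_, rfl⟩
    have g1 : ∑ r ∈ Fs, (W1 + y r) ≤ ∑ r ∈ Fs, ((Hs A p R r).card + V'.card +
        ((Nr A p).filter (fun u => r ∈ R u)).card) := by
      apply sum_le_sum
      intro r hr
      rw [hFs, mem_filter] at hr
      have g2 := h.outdeg hp hR r
      have g3 := card_union_le (Oo A p r) V'
      have g4 := hr.2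
      simp only [hy] at g4 ⊢
      omega
    rw [sum_add_distrib, sum_add_distrib, sum_add_distrib, ← hYF, sum_const, sum_const,
      smul_eq_mul, smul_eq_mul, hW1] at g1
    have g5 : ∑ r ∈ Fs, (Hs A p R r).card ≤ ∑ r ∈ N1, (Hs A p R r).card :=
      sum_le_sum_of_subset hFsub
    have g6 : (w + 1) * Fs.card = Fs.card * (w + 1) := mul_comm _ _
    have g7 : V'.card * Fs.card = Fs.card * V'.card := mul_comm _ _
    omega
  have hKD : K.card ≤ D := by
    have h1 := card_le_card himg
    rw [card_image_of_injOn (fun v hv v' hv' e => hinj v hv v' hv' e), hp] at h1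
    exact h1
  obtain ⟨q, hq⟩ : ∃ q, H0 = SL + l + q := ⟨H0 - SL - l, by omega⟩
  -- bound B
  have hrawB := h.raw hp hc (empty_subset _)
  simp only [sdiff_empty, sum_empty, add_zero] at hrawB
  have hB1 : ∑ r ∈ (Nc A c).erase p, (Oo A p r).card ≤
      N1.card * (w + 1) + ∑ r ∈ (Nc A c).erase p,
        (if r ∈ I0 A p R then (Hs A p R r).card else 0) := by
    have h1 : ∑ r ∈ (Nc A c).erase p, (if r ∈ I0 A p R then 0 else (w + 1)) =
        N1.card * (w + 1) := by
      rw [hN1, ← smul_eq_mul, ← sum_const, sum_filter]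
      apply sum_congr rfl
      intro r _
      by_cases h2 : r ∈ I0 A p R <;> simp [h2]
    rw [← h1, ← sum_add_distrib]
    apply sum_le_sum
    intro r hr
    rw [mem_erase] at hr
    by_cases h2 : r ∈ I0 A p R
    · rw [if_pos h2, if_pos h2, zero_add]
      exact h.out_le0 hp hR h2
    · rw [if_neg h2, if_neg h2, add_zero]
      exact h.out_le hp hDw hr.1 h2
  have hB2 : ∑ r ∈ Ww A R c, (Oo A p r).card ≤ l * (w + 1) + ∑ r ∈ Ww A R c,
      (if r ∈ I0 A p R then (Hs A p R r).card else 0) := by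
    have h1 : ∑ r ∈ Ww A R c, (if r ∈ I0 A p R then 0 else (w + 1)) = l * (w + 1) := by
      have h6 : Ww A R c \ I0 A p R = (Ww A R c).filter (fun r => r ∉ I0 A p R) := by
        ext r; simp
      rw [hl, h6, ← smul_eq_mul, ← sum_const, sum_filter]
      apply sum_congr rfl
      intro r _
      by_cases h2 : r ∈ I0 A p R <;> simp [h2]
    rw [← h1, ← sum_add_distrib]
    apply sum_le_sum
    intro r hr
    by_cases h2 : r ∈ I0 A p R
    · rw [if_pos h2, if_pos h2, zero_add]
      exact h.out_le0 hp hR h2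
    · rw [if_neg h2, if_neg h2, add_zero]
      have hrp : r ≠ p := by
        rintro rfl
        exact Ctx.pW hc hr
      exact h.out_le hp hDw hrp h2
  have hB3 : ∑ v ∈ Ac A p C c, (R c ∩ Nc A v).card ≤
      K.card * (2 + df) + SL + (Ac A p C c \ V).card * (1 + df) + V'.card * (k - 1) := by
    rw [← sum_sdiff (hV'sub.trans hVAc)]
    apply add_le_add hcols
    rw [← smul_eq_mul, ← sum_const]
    apply sum_le_sum
    intro v hv
    have h1 : R c ∩ Nc A v ⊆ (R c).erase p := by
      intro r hr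
      rw [mem_inter, mem_Nc] at hr
      rw [mem_erase]
      refine ⟨?_, hr.1⟩
      rintro rfl
      exact hvp v (hVAc (hV'sub hv)) (mem_Nr.2 hr.2)
    have h2 := card_le_card h1
    rw [card_erase_of_mem (h.pR c hc), (h.cp c hc).cR] at h2
    exact h2
  refine ⟨K.card, V'.card, l, Fs.card, inc.card, q, Y, by omega, hd0, hFD, by omega, ?_, hYd,
    by omega, ?_, ?_⟩
  · have h2 : D * l = (D - K.card) * l + K.card * l := by
      rw [← add_mul]; congr 1; omega
    omega
  · -- collect
    have hmain : (E A).card + (q + l) + 1 + D * k + N1.card * V'.card ≤ D * (k + x + 1) + k +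
        K.card * (2 + df) + (Ac A p C c \ V).card * (1 + df) + V'.card * D +
        N1.card * (w + 1) + Y + l * (w + 1) := by omega
    obtain ⟨i, hi⟩ : ∃ i, (Nc A c).card = N1.card + 1 + i := ⟨(Nc A c).card - (N1.card + 1), by omega⟩
    have hx : x = N1.card + i + df := by omega
    have hV'w : V'.card ≤ w := by omega
    have hdfw : w ≤ df := by omega
    obtain ⟨q', hq'⟩ : ∃ q', (Ac A p C c \ V).card = q' := ⟨_, rfl⟩
    rw [hq'] at hmain hcardV
    have hkx : 1 ≤ k + x := by rw [← cP]; exact Fintype.card_pos_iff.2 ⟨p⟩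
    obtain ⟨n1, hn1⟩ : ∃ n1, k + x = n1 + 1 := ⟨k + x - 1, by omega⟩
    have hn : k + x - 1 = n1 := by omega
    rw [hn]
    generalize (E A).card = e at hmain ⊢
    generalize N1.card = m at hmain hx
    generalize V'.card = d at hmain hcardV hV'w ⊢
    generalize K.card = κ at hmain hcardV ⊢
    clear_value df l Y
    clear hq
    obtain ⟨s, hs⟩ : ∃ s, w = d + s := ⟨w - d, by omega⟩
    have hqs : q' + κ = s := by omega
    zify at hmain hx hs hqs hn1 hDw hdfw ⊢
    have hi0 : (0 : ℤ) ≤ i := Int.natCast_nonneg i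
    have hs0 : (0 : ℤ) ≤ s := Int.natCast_nonneg s
    have hprod : (0 : ℤ) ≤ i * (s + 1) := by positivity
    have hDe : (D : ℤ) = x + 1 - w := by linarith
    have hke : (k : ℤ) = n1 + 1 - x := by linarith
    have hqe : (q' : ℤ) = s - κ := by linarith
    rw [hDe, hke, hqe, hs] at hmain
    rw [hs]
    rw [hs] at hdfw
    rw [hx] at hmain ⊢
    linarith [hmain, hprod, hdfw]
  · -- collect B
    have hmain : (E A).card + (q + l) + 1 + D * k ≤ D * (k + x + 1) + k +
        K.card * (2 + df) + (Ac A p C c \ V).card * (1 + df) + V'.card * (k - 1) +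
        N1.card * (w + 1) + l * (w + 1) := by omega
    obtain ⟨i, hi⟩ : ∃ i, (Nc A c).card = N1.card + 1 + i := ⟨(Nc A c).card - (N1.card + 1), by omega⟩
    have hx : x = N1.card + i + df := by omega
    have hV'w : V'.card ≤ w := by omega
    have hdfw : w ≤ df := by omega
    obtain ⟨q', hq'⟩ : ∃ q', (Ac A p C c \ V).card = q' := ⟨_, rfl⟩
    rw [hq'] at hmain hcardV
    have hkx : 1 ≤ k + x := by rw [← cP]; exact Fintype.card_pos_iff.2 ⟨p⟩
    obtain ⟨n1, hn1⟩ : ∃ n1, k + x = n1 + 1 := ⟨k + x - 1, by omega⟩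
    have hn : k + x - 1 = n1 := by omega
    rw [hn]
    generalize (E A).card = e at hmain ⊢
    generalize N1.card = m at hmain hx
    generalize V'.card = d at hmain hcardV hV'w ⊢
    generalize K.card = κ at hmain hcardV ⊢
    generalize k - 1 = k' at hmain ⊢
    clear_value df l Y
    clear hq
    obtain ⟨s, hs⟩ : ∃ s, w = d + s := ⟨w - d, by omega⟩
    have hqs : q' + κ = s := by omega
    zify at hmain hx hs hqs hn1 hDw hdfw ⊢
    have hi0 : (0 : ℤ) ≤ i := Int.natCast_nonneg i
    have hs0 : (0 : ℤ) ≤ s := Int.natCast_nonneg s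
    have hd0 : (0 : ℤ) ≤ d := Int.natCast_nonneg d
    have hprod : (0 : ℤ) ≤ i * (d + s + 1) := by positivity
    have hprod2 : (0 : ℤ) ≤ d * (df - (d + s)) := by
      apply mul_nonneg hd0; linarith
    have hDe : (D : ℤ) = x + 1 - w := by linarith
    have hke : (k : ℤ) = n1 + 1 - x := by linarith
    have hqe : (q' : ℤ) = s - κ := by linarith
    rw [hDe, hke, hqe, hs] at hmain
    rw [hs]
    rw [hs] at hdfw
    rw [hx] at hmain ⊢
    linarith [hmain, hprod, hprod2, hdfw]

end SIFU
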