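import Pool.Agent.H99.SIF.UnL
import Pool.Agent.H25.SIF.Ar25

/-! Unordered form of MP_008206_co: the linear range (proof of helper25). -/

namespace SIFU
open Finset

/-- arithmetic at the end of the proof -/
theorem fin25 (D w k κ d l q Y e B : ℕ) (hk : 1 ≤ k) (h1 : κ + d ≤ w) (h2 : Y ≤ q + κ)
    (h3 : D * l ≤ q + l + κ * l) (h4 : e + w + d * w + q ≤ B + κ + w * l + Y)
    (h5 : e + w + d * (w + 1) + q ≤ B + κ + d * (k - 1) + w * l)
    (hD1 : 2 * w + 1 ≤ D) (hD2 : w + k ≤ D + 3) : e ≤ B := by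
  by_contra hlt
  have hlt' : B + 1 ≤ e := by omega
  obtain ⟨k', rfl⟩ : ∃ k', k = k' + 1 := ⟨k - 1, by omega⟩
  rw [Nat.add_sub_cancel] at h5
  zify at *
  have hl0 : (0 : ℤ) ≤ l := Int.natCast_nonneg l
  have hd0 : (0 : ℤ) ≤ d := Int.natCast_nonneg d
  have hκ0 : (0 : ℤ) ≤ κ := Int.natCast_nonneg κ
  -- `d ≤ l`
  have hdl : (d : ℤ) ≤ l := by
    by_contra h6
    have h7 : (l : ℤ) + 1 ≤ d := by linarith [not_le.mp h6, Int.add_one_le_iff.mpr (not_le.mp h6)]
    have hw0 : (0 : ℤ) ≤ w := Int.natCast_nonneg w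
    have h8 : 0 ≤ (w : ℤ) * (d - (l + 1)) := mul_nonneg hw0 (by linarith)
    nlinarith
  have hg : (d : ℤ) ≤ D - 1 - κ - w := by linarith
  have h9 : 0 ≤ ((D : ℤ) - 1 - κ - w - (D - 1 - 2 * w + d)) * l :=
    mul_nonneg (by linarith) hl0
  have h10 : 0 ≤ ((D : ℤ) - 1 - 2 * w + d) * (l - d) := mul_nonneg (by linarith) (by linarith)
  rcases Nat.eq_zero_or_pos d with h11 | h11
  · subst h11
    simp only [Nat.cast_zero] at *
    nlinarith
  · have h12 : (1 : ℤ) ≤ d := by exact_mod_cast h11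
    have h13 : 0 ≤ (d : ℤ) * (D + 2 - w - (k' + 1) + d) := mul_nonneg hd0 (by linarith)
    nlinarith

variable {P Q : Type} [Fintype P] [Fintype Q] [DecidableEq P] [DecidableEq Q]

/-- the case of a fullest row -/
theorem linear_row {A : P → Q → Bool} {k x D w : ℕ} (cP : Fintype.card P = k + x)
    (cQ : Fintype.card Q = k + x) (hU : U A k) (hR : ∀ r, (Nr A r).card ≤ D)
    (hC : ∀ c, (Nc A c).card ≤ D) (hDw : D + w = x + 1) (hk : 1 ≤ k) (p : P)
    (hp : (Nr A p).card = D) (hD1 : 2 * w + 1 ≤ D) (hD2 : w + k ≤ D + 3) :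
    (E A).card ≤ (x + 1) ^ 2 + (k + x - 1) := by
  obtain ⟨κ, d, l, f, ι, q, Y, h1, _, _, h4, h5, _, _, h8, h9⟩ :=
    frame52 cP cQ hU hR hC hDw (by omega) p hp
  refine fin25 D w k κ d l q Y _ _ hk h1 ?_ h5 ?_ ?_ hD1 hD2
  · have := Nat.zero_le (ι * l); omega
  · omega
  · omega

/-- the linear range: the bound holds as soon as `n` is at least about `(2 + √2) k` -/
theorem linear_range {A : P → Q → Bool} {k x : ℕ} (cP : Fintype.card P = k + x)
    (cQ : Fintype.card Q = k + x) (hU : U A k) (hk : 2 ≤ k)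
    (h1 : k ≤ x + 8) (h2 : k ^ 2 + 2 * k * x ≤ x ^ 2 + 9 * x + 5 * k) :
    (E A).card ≤ (x + 1) ^ 2 + (k + x - 1) := by
  classical
  have hswapE : (E (fun c r => A r c)).card = (E A).card := by
    rw [card_E_rows (fun c r => A r c), card_E_cols A]
    rfl
  -- the fullest line
  haveI : Nonempty P := by
    rw [← Fintype.card_pos_iff, cP]; omega
  haveI : Nonempty Q := by
    rw [← Fintype.card_pos_iff, cQ]; omega
  obtain ⟨p, -, hpmax⟩ := exists_max_image (univ : Finset P) (fun r => (Nr A r).card)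
    univ_nonempty
  obtain ⟨c, -, hcmax⟩ := exists_max_image (univ : Finset Q) (fun r => (Nc A r).card)
    univ_nonempty
  set D := max (Nr A p).card (Nc A c).card with hDdef
  have hR : ∀ r, (Nr A r).card ≤ D := fun r => (hpmax r (mem_univ r)).trans (le_max_left _ _)
  have hC : ∀ r, (Nc A r).card ≤ D := fun r => (hcmax r (mem_univ r)).trans (le_max_right _ _)
  have hDx : D ≤ x + 1 := by
    rw [hDdef, max_le_iff]
    exact ⟨deg_le cQ hU p, deg_le (A := fun c r => A r c) cP (U_swap hU) c⟩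
  obtain ⟨w, hDw⟩ : ∃ w, D + w = x + 1 := ⟨x + 1 - D, by omega⟩
  have hrange := range25 (k := k) (x := x) (w := w) (D := D) (by exact_mod_cast hk)
    (Int.natCast_nonneg x) (Int.natCast_nonneg w) (by exact_mod_cast hDw) (by exact_mod_cast h1)
    (by exact_mod_cast h2)
  rcases hrange with ⟨hD1', hD2'⟩ | hD3
  · have hD1 : 2 * w + 1 ≤ D := by omega
    have hD2 : w + k ≤ D + 3 := by omega
    rcases le_total (Nc A c).card (Nr A p).card with h3 | h3
    · have hp : (Nr A p).card = D := by rw [hDdef, max_eq_left h3]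
      exact linear_row cP cQ hU hR hC hDw (by omega) p hp hD1 hD2
    · have hp : (Nc A c).card = D := by rw [hDdef, max_eq_right h3]
      have := linear_row (A := fun c r => A r c) cQ cP (U_swap hU) hC hR hDw (by omega) c hp
        hD1 hD2
      rw [hswapE] at this
      exact this
  · -- the trivial bound
    have h3 : (E A).card ≤ (k + x) * D := by
      rw [card_E_rows, ← cP, ← card_univ, ← smul_eq_mul, ← sum_const]
      exact sum_le_sum (fun r _ => hR r)
    refine h3.trans ?_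
    obtain ⟨n1, hn1⟩ : ∃ n1, k + x = n1 + 1 := ⟨k + x - 1, by omega⟩
    have hn : k + x - 1 = n1 := by omega
    rw [hn]
    zify
    have h4 : (k : ℤ) + x = n1 + 1 := by exact_mod_cast hn1
    have h5 : (k : ℤ) + x - 1 = n1 := by linarith
    rw [h5] at hD3
    exact hD3

end SIFU
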